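import Mathlib

namespace Pool.Agent.H19.CG

/-! ### The potential -/

/-- the potential of a token with k claimed covers, Breaker to move (doubled) -/
def PP (d k : ℕ) : ℤ :=
  if k = 0 then 0 else if k = 1 then (d : ℤ) - 2 else ((d : ℤ) - 3) * (min k (d - 1) : ℕ) + 2

/-- the same with Maker to move -/
def RR (d b : ℕ) : ℤ := if b = 0 then 0 else PP d (b - 1)

/-- twice the price of a level -/
def CC (d : ℕ) : ℤ := (d : ℤ) ^ 2 - 2 * d + 5

variable {d : ℕ}

theorem PP_zero : PP d 0 = 0 := rfl

theorem PP_one : PP d 1 = (d : ℤ) - 2 := rfl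

theorem PP_big {k : ℕ} (hk : 2 ≤ k) : PP d k = ((d : ℤ) - 3) * (min k (d - 1) : ℕ) + 2 := by
  unfold PP
  rw [if_neg (by omega), if_neg (by omega)]

theorem PP_big' {k : ℕ} (hd : 3 ≤ d) (hk : 2 ≤ k) (hk' : k ≤ d - 1) :
    PP d k = ((d : ℤ) - 3) * k + 2 := by
  rw [PP_big hk, min_eq_left hk']

theorem PP_mono (hd : 3 ≤ d) {k l : ℕ} (h : k ≤ l) : PP d k ≤ PP d l := by
  have hd' : (3 : ℤ) ≤ d := by exact_mod_cast hd
  rcases Nat.lt_or_ge l 2 with hl | hl
  · interval_cases l <;> interval_cases k <;> simp [PP_zero, PP_one] <;> omega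
  · have hm : (2 : ℤ) ≤ (min l (d - 1) : ℕ) := by
      have : 2 ≤ min l (d - 1) := le_min hl (by omega)
      exact_mod_cast this
    rw [PP_big hl]
    rcases Nat.lt_or_ge k 2 with hk | hk
    · interval_cases k
      · rw [PP_zero]
        nlinarith
      · rw [PP_one]
        nlinarith
    · rw [PP_big hk]
      have h1 : ((min k (d - 1) : ℕ) : ℤ) ≤ (min l (d - 1) : ℕ) := by
        exact_mod_cast min_le_min_right _ h
      nlinarith

theorem PP_nonneg (hd : 3 ≤ d) (k : ℕ) : 0 ≤ PP d k := PP_mono hd (Nat.zero_le k)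

theorem RR_nonneg (hd : 3 ≤ d) (k : ℕ) : 0 ≤ RR d k := by
  unfold RR
  split_ifs
  · exact le_refl 0
  · exact PP_nonneg hd _

theorem RR_le (hd : 3 ≤ d) {b k : ℕ} (h : b ≤ k + 1) : RR d b ≤ PP d k := by
  unfold RR
  split_ifs
  · exact PP_nonneg hd _
  · exact PP_mono hd (by omega)

theorem step_one (hd : 3 ≤ d) {b u k M : ℕ} (hb : b + u = d) (hu : 1 ≤ u) (hk : k ≤ d)
    (h1 : u * k ≤ 2 * M) (h2 : k ≤ M) : PP d k ≤ RR d b + 2 * b + 2 * ((M : ℤ) - k) := by
  have hd' : (3 : ℤ) ≤ d := by exact_mod_cast hd
  have h1' : (u : ℤ) * k ≤ 2 * M := by exact_mod_cast h1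
  have h2' : (k : ℤ) ≤ M := by exact_mod_cast h2
  have hb' : (b : ℤ) + u = d := by exact_mod_cast hb
  have hR := RR_nonneg hd b
  rcases Nat.lt_or_ge k 2 with hk2 | hk2
  · interval_cases k
    · rw [PP_zero]
      push_cast
      nlinarith
    · rw [PP_one]
      push_cast at *
      rcases Nat.lt_or_ge b 2 with hb2 | hb2
      · interval_cases b <;> push_cast at * <;> linarith
      · have h3 : PP d 1 ≤ RR d b := by
          unfold RR
          rw [if_neg (by omega)]
          exact PP_mono hd (by omega)
        rw [PP_one] at h3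
        have : (0 : ℤ) ≤ b := by positivity
        linarith
  · rw [PP_big hk2]
    set q := min k (d - 1) with hq
    have hq1 : (q : ℤ) ≤ k := by exact_mod_cast min_le_left k (d - 1)
    have hq2 : (q : ℤ) ≤ d - 1 := by
      have : q ≤ d - 1 := min_le_right k (d - 1)
      have h3 : q + 1 ≤ d := by omega
      have h4 : (q : ℤ) + 1 ≤ d := by exact_mod_cast h3
      linarith
    have hq3 : (2 : ℤ) ≤ q := by
      have : 2 ≤ q := le_min hk2 (by omega)
      exact_mod_cast this
    rcases Nat.lt_or_ge b 2 with hb2 | hb2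
    · interval_cases b
      · have : (u : ℤ) = d := by push_cast at hb'; linarith
        rw [this] at h1'
        push_cast
        nlinarith
      · have : (u : ℤ) = d - 1 := by push_cast at hb'; linarith
        rw [this] at h1'
        push_cast
        nlinarith
    · rcases Nat.lt_or_ge b 3 with hb3 | hb3
      · have hb4 : b = 2 := by omega
        subst hb4
        have hR2 : RR d 2 = (d : ℤ) - 2 := rfl
        rw [hR2]
        have hu' : (u : ℤ) = d - 2 := by push_cast at hb'; linarith
        rcases Nat.lt_or_ge u 2 with hu2 | hu2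
        · have : (u : ℤ) = 1 := by
            have : u = 1 := by omega
            exact_mod_cast this
          have h5 : (d : ℤ) = 3 := by linarith
          rw [h5]
          push_cast
          linarith
        · have hu3 : (2 : ℤ) ≤ u := by exact_mod_cast hu2
          rw [hu'] at h1' hu3
          push_cast
          nlinarith
      · have hR2 : RR d b = ((d : ℤ) - 3) * (b - 1) + 2 := by
          unfold RR
          rw [if_neg (by omega), PP_big' hd (by omega) (by omega)]
          push_cast [Nat.cast_sub (show 1 ≤ b by omega)]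
          ring
        rw [hR2]
        have hb4 : (3 : ℤ) ≤ b := by exact_mod_cast hb3
        rcases Nat.lt_or_ge u 2 with hu2 | hu2
        · have : (u : ℤ) = 1 := by
            have : u = 1 := by omega
            exact_mod_cast this
          have h5 : (b : ℤ) = d - 1 := by linarith
          rw [h5]
          nlinarith
        · have hu3 : (2 : ℤ) ≤ u := by exact_mod_cast hu2
          have hu' : (u : ℤ) = d - b := by linarith
          rw [hu'] at h1' hu3
          have h6 : ((d : ℤ) - b - 2) * q ≤ 2 * ((M : ℤ) - k) := by nlinarith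
          nlinarith

theorem step_two (hd : 3 ≤ d) {k M : ℕ} (h1 : d * k ≤ 2 * M) (h2 : k ≤ M) :
    CC d + RR d k ≤ RR d d + 2 * d + 2 * ((M : ℤ) - k) := by
  have hd' : (3 : ℤ) ≤ d := by exact_mod_cast hd
  have h1' : (d : ℤ) * k ≤ 2 * M := by exact_mod_cast h1
  have h2' : (k : ℤ) ≤ M := by exact_mod_cast h2
  have hR2 : RR d d = ((d : ℤ) - 3) * (d - 1) + 2 := by
    unfold RR
    rw [if_neg (by omega), PP_big' hd (by omega) (le_refl _)]
    push_cast [Nat.cast_sub (show 1 ≤ d by omega)]
    ring
  have hC : CC d = RR d d + 2 * d := by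
    rw [hR2]
    unfold CC
    ring
  rw [hC]
  have key : RR d k ≤ 2 * ((M : ℤ) - k) := by
    rcases Nat.lt_or_ge k 3 with hk | hk
    · interval_cases k
      · have : RR d 0 = 0 := rfl
        rw [this]
        push_cast
        linarith
      · have : RR d 1 = 0 := rfl
        rw [this]
        push_cast at *
        linarith
      · have : RR d 2 = (d : ℤ) - 2 := rfl
        rw [this]
        push_cast at *
        nlinarith
    · unfold RR
      rw [if_neg (by omega), PP_big (by omega)]
      have hk' : (3 : ℤ) ≤ k := by exact_mod_cast hk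
      have hq1 : ((min (k - 1) (d - 1) : ℕ) : ℤ) ≤ k - 1 := by
        have : min (k - 1) (d - 1) + 1 ≤ k := by
          have := min_le_left (k - 1) (d - 1)
          omega
        have h4 : ((min (k - 1) (d - 1) : ℕ) : ℤ) + 1 ≤ k := by exact_mod_cast this
        linarith
      nlinarith
  linarith

theorem CC_le (hd : 3 ≤ d) : 0 ≤ CC d := by
  unfold CC
  nlinarith [sq_nonneg ((d : ℤ) - 1)]

end Pool.Agent.H19.CG
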