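import Mathlib

namespace Pool.Agent.H19.CG

/-- The simplex poset Q^d_n with the componentwise order. -/
abbrev Q (d n : ℕ) : Type := {x : Fin d → ℕ // ∑ j, x j ≤ n}

/-- A complete play: the list of the claimed elements, oldest first; every element of the poset
is claimed exactly once. The moves number 0, 2, 4, .. are Maker's. -/
def IsPlay {P : Type} (l : List P) : Prop := l.Nodup ∧ ∀ x, x ∈ l

/-- The moves of Maker (number 0, 2, 4, ..) in temporal order. -/
def mk {P : Type} : List P → List P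
  | [] => []
  | [a] => [a]
  | a :: _ :: l => a :: mk l

/-- A strategy proposes a move for every history; it is legal if the proposed element
is not claimed yet (as long as there is an unclaimed element). -/
def Legal {P : Type} (s : List P → P) : Prop := ∀ h : List P, (∃ x, x ∉ h) → s h ∉ h

/-- In the play l all moves of Maker are those of the strategy s. -/
def ByMaker {P : Type} (s : List P → P) (l : List P) : Prop :=
  ∀ i x, i % 2 = 0 → l[i]? = some x → x = s (l.take i)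

/-- The score of Maker in the sequence game is at least k. -/
def SeqScore {P : Type} [PartialOrder P] (l : List P) (k : ℕ) : Prop :=
  ∃ s : List P, s.Sublist (mk l) ∧ s.Pairwise (· < ·) ∧ s.length = k

/-- Maker can guarantee the score k in the sequence game on P. -/
def SeqG (P : Type) [PartialOrder P] (k : ℕ) : Prop :=
  ∃ s : List P → P, Legal s ∧ ∀ l, IsPlay l → ByMaker s l → SeqScore l k

/-- The value of the sequence game. -/
noncomputable def gseq (P : Type) [PartialOrder P] : ℕ := sSup {k | SeqG P k}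

/-- The height: the largest number of elements of a chain. -/
noncomputable def ht (P : Type) [PartialOrder P] : ℕ :=
  sSup {k | ∃ s : List P, s.Pairwise (· < ·) ∧ s.length = k}

/-! ### The certificate -/

/-- Strategy trees of Breaker: the reply (relative coordinates) and the subtrees for the three
directions. -/
inductive Tr : Type
  | L : Tr
  | N (a b c : ℕ) (x y z : Tr) : Tr

abbrev V3 : Type := ℕ × ℕ × ℕ

def mem (v : V3) : List V3 → Bool
  | [] => false
  | w :: l => (Nat.beq v.1 w.1 && (Nat.beq v.2.1 w.2.1 && Nat.beq v.2.2 w.2.2)) || mem v l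

def s0 : List V3 → List V3
  | [] => []
  | (0, _, _) :: l => s0 l
  | (a + 1, b, c) :: l => (a, b, c) :: s0 l

def s1 : List V3 → List V3
  | [] => []
  | (_, 0, _) :: l => s1 l
  | (a, b + 1, c) :: l => (a, b, c) :: s1 l

def s2 : List V3 → List V3
  | [] => []
  | (_, _, 0) :: l => s2 l
  | (a, b, c + 1) :: l => (a, b, c) :: s2 l

def chk : Tr → List V3 → Bool
  | .L, _ => false
  | .N a b c x y z, D =>
    (mem (1, 0, 0) ((a, b, c) :: D) || chk x (s0 ((a, b, c) :: D))) &&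
    ((mem (0, 1, 0) ((a, b, c) :: D) || chk y (s1 ((a, b, c) :: D))) &&
    (mem (0, 0, 1) ((a, b, c) :: D) || chk z (s2 ((a, b, c) :: D))))

def dep : Tr → ℕ
  | .L => 0
  | .N _ _ _ x y z => 1 + max (dep x) (max (dep y) (dep z))

def vtx : Tr → V3
  | .L => (0, 0, 0)
  | .N a b c _ _ _ => (a, b, c)

def c0 : Tr := .N 1 0 0 Tr.L Tr.L Tr.L
def c1 : Tr := .N 0 1 0 Tr.L Tr.L Tr.L
def c2 : Tr := .N 0 0 1 Tr.L Tr.L Tr.L
def c3 : Tr := .N 1 0 1 c0 c1 c2
def c4 : Tr := .N 0 1 0 c1 Tr.L c1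
def c5 : Tr := .N 2 1 0 c3 c4 c3
def c6 : Tr := .N 1 0 0 Tr.L Tr.L c1
def c7 : Tr := .N 0 0 1 c1 Tr.L Tr.L
def c8 : Tr := .N 1 1 0 c6 c1 c7
def c9 : Tr := .N 0 0 1 c3 c7 Tr.L
def c10 : Tr := .N 2 1 1 c5 c8 c9
def c11 : Tr := .N 1 0 0 Tr.L c6 c3
def c12 : Tr := .N 1 0 0 Tr.L c1 c7
def c13 : Tr := .N 1 1 2 c11 c12 c9
def c14 : Tr := .N 2 1 2 c10 c5 c13
def c15 : Tr := .N 0 1 2 c3 c4 c3
def c16 : Tr := .N 0 1 0 c5 Tr.L c15
def c17 : Tr := .N 2 1 1 c11 c12 c9
def c18 : Tr := .N 0 1 1 c6 c1 c7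
def c19 : Tr := .N 1 1 2 c11 c18 c15
def c20 : Tr := .N 2 1 2 c17 c15 c19
def c21 : Tr := .N 2 2 1 c14 c16 c20
def c22 : Tr := .N 1 0 0 Tr.L c0 c0
def c23 : Tr := .N 0 1 1 c0 c1 c2
def c24 : Tr := .N 1 2 0 c22 c23 c23
def c25 : Tr := .N 1 0 2 c22 c23 c23
def c26 : Tr := .N 1 0 0 Tr.L c24 c25
def c27 : Tr := .N 0 1 0 Tr.L Tr.L c0
def c28 : Tr := .N 0 0 1 Tr.L c0 Tr.L
def c29 : Tr := .N 1 1 0 c0 c27 c28
def c30 : Tr := .N 0 0 1 c28 c23 Tr.L
def c31 : Tr := .N 1 2 1 c29 c24 c30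
def c32 : Tr := .N 0 1 0 c0 Tr.L c28
def c33 : Tr := .N 0 1 0 c27 Tr.L c23
def c34 : Tr := .N 1 1 2 c32 c33 c30
def c35 : Tr := .N 1 2 2 c24 c31 c34
def c36 : Tr := .N 1 2 1 c32 c33 c30
def c37 : Tr := .N 1 0 1 c0 c27 c28
def c38 : Tr := .N 1 1 2 c37 c33 c25
def c39 : Tr := .N 1 2 2 c25 c36 c38
def c40 : Tr := .N 2 2 1 c26 c35 c39
def c41 : Tr := .N 2 1 2 c26 c35 c39
def c42 : Tr := .N 2 2 2 c21 c40 c41

theorem chk_c42 : chk c42 [] = true := by decide +kernel

theorem dep_c42 : dep c42 = 7 := by decide +kernel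

end Pool.Agent.H19.CG
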