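import Mathlib

namespace Pool.Agent.H19.CG

/-! ### Counting claimed points above a point -/

variable {d : ℕ}

open scoped Classical

abbrev e (j : Fin d) : Fin d → ℕ := Pi.single j 1

/-- the rank -/
def rk (x : Fin d → ℕ) : ℕ := ∑ j, x j

theorem rk_add_e (x : Fin d → ℕ) (j : Fin d) : rk (x + e j) = rk x + 1 := by
  unfold rk
  simp only [Pi.add_apply, Finset.sum_add_distrib]
  congr 1
  simp [e, Finset.sum_pi_single']

/-- the number of claimed upper covers -/
noncomputable def N1 (H : Finset (Fin d → ℕ)) (x : Fin d → ℕ) : ℕ := (Finset.univ.filter (fun j => x + e j ∈ H)).card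

/-- the number of claimed points at distance two above x -/
noncomputable def N2 (H : Finset (Fin d → ℕ)) (x : Fin d → ℕ) : ℕ := (H.filter (fun y => x ≤ y ∧ rk y = rk x + 2)).card

/-- the number of claimed points above x -/
noncomputable def Ab (H : Finset (Fin d → ℕ)) (x : Fin d → ℕ) : ℕ := (H.filter (fun y => x < y)).card

theorem le_add_e (x : Fin d → ℕ) (j : Fin d) : x ≤ x + e j := fun i => Nat.le_add_right _ _

theorem lt_add_e (x : Fin d → ℕ) (j : Fin d) : x < x + e j := by
  refine lt_of_le_of_ne (le_add_e x j) ?_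
  intro h
  have h1 := rk_add_e x j
  rw [← h] at h1
  omega

theorem rk_mono {x y : Fin d → ℕ} (h : x ≤ y) : rk x ≤ rk y := Finset.sum_le_sum (fun i _ => h i)

theorem eq_of_le_rk {x y : Fin d → ℕ} (h : x ≤ y) (hr : rk y ≤ rk x) : x = y := by
  have h1 : ∑ i, x i = ∑ i, y i := le_antisymm (rk_mono h) hr
  have h2 := (Finset.sum_eq_sum_iff_of_le (fun i _ => h i)).1 h1
  funext i
  exact h2 i (Finset.mem_univ i)

theorem rk_lt {x y : Fin d → ℕ} (h : x < y) : rk x < rk y := by
  by_contra hc
  exact h.ne (eq_of_le_rk h.le (by omega))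

theorem cover_of {x y : Fin d → ℕ} (h : x < y) : ∃ i, x + e i ≤ y := by
  obtain ⟨h1, i, h2⟩ := Pi.lt_def.1 h
  refine ⟨i, fun k => ?_⟩
  by_cases hk : k = i
  · subst hk
    simp only [Pi.add_apply, e, Pi.single_eq_same]
    omega
  · simp only [Pi.add_apply, e, Pi.single_eq_of_ne hk, add_zero]
    exact h1 k

theorem cover_eq {x y : Fin d → ℕ} (h : x < y) (hr : rk y = rk x + 1) : ∃ i, y = x + e i := by
  obtain ⟨i, hi⟩ := cover_of h
  exact ⟨i, (eq_of_le_rk hi (by rw [rk_add_e]; omega)).symm⟩

theorem e_inj {i j : Fin d} (h : e i = e j) : i = j := by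
  by_contra hc
  have := congrFun h i
  simp [e, Pi.single_eq_of_ne hc] at this

theorem N1_le_N2 (H : Finset (Fin d → ℕ)) (x : Fin d → ℕ) (j : Fin d) :
    N1 H (x + e j) ≤ N2 H x := by
  unfold N1 N2
  refine Finset.card_le_card_of_injOn (fun i => x + e j + e i) ?_ ?_
  · intro i hi
    simp only [Finset.coe_filter, Finset.mem_univ, true_and, Set.mem_setOf_eq] at hi
    simp only [Finset.coe_filter, Set.mem_setOf_eq]
    exact ⟨hi, (le_add_e x j).trans (le_add_e _ i), by rw [rk_add_e, rk_add_e]⟩
  · intro a _ b _ hab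
    exact e_inj (add_left_cancel hab)

theorem N1_le (H : Finset (Fin d → ℕ)) (x : Fin d → ℕ) : N1 H x ≤ d := by
  unfold N1
  exact (Finset.card_filter_le _ _).trans (by simp)

/-- The points which are lost when the token moves. -/
theorem leave (H : Finset (Fin d → ℕ)) (x : Fin d → ℕ) (j : Fin d) :
    Ab H (x + e j) + N1 H x + N2 H x ≤ Ab H x + N1 H (x + e j) := by
  have hA2 : N1 H x = (H.filter (fun y => x < y ∧ rk y = rk x + 1)).card := by
    unfold N1
    refine Finset.card_bij (fun i _ => x + e i) ?_ ?_ ?_
    · intro i hi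
      simp only [Finset.mem_filter, Finset.mem_univ, true_and] at hi
      simp only [Finset.mem_filter]
      exact ⟨hi, lt_add_e x i, rk_add_e x i⟩
    · intro a _ b _ hab
      exact e_inj (add_left_cancel hab)
    · intro y hy
      simp only [Finset.mem_filter] at hy
      obtain ⟨i, rfl⟩ := cover_eq hy.2.1 hy.2.2
      exact ⟨i, by simpa using hy.1, rfl⟩
  have hI : (H.filter (fun y => x + e j < y) ∩ H.filter (fun y => x ≤ y ∧ rk y = rk x + 2)).card ≤
      N1 H (x + e j) := by
    unfold N1
    refine (Finset.card_le_card ?_).trans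
      (Finset.card_image_le (f := fun i => x + e j + e i))
    intro y hy
    simp only [Finset.mem_inter, Finset.mem_filter] at hy
    obtain ⟨i, rfl⟩ := cover_eq hy.1.2 (by rw [rk_add_e]; omega)
    exact Finset.mem_image.2 ⟨i, by simpa using hy.1.1, rfl⟩
  have hU : (H.filter (fun y => x + e j < y) ∪ H.filter (fun y => x ≤ y ∧ rk y = rk x + 2)).card +
      (H.filter (fun y => x < y ∧ rk y = rk x + 1)).card ≤ Ab H x := by
    unfold Ab
    rw [← Finset.card_union_of_disjoint]
    · apply Finset.card_le_card
      intro y hy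
      simp only [Finset.mem_union, Finset.mem_filter] at hy ⊢
      rcases hy with (hy | hy) | hy
      · exact ⟨hy.1, (lt_add_e x j).trans hy.2⟩
      · refine ⟨hy.1, lt_of_le_of_ne hy.2.1 ?_⟩
        intro h
        have := hy.2.2
        rw [← h] at this
        omega
      · exact ⟨hy.1, hy.2.1⟩
    · rw [Finset.disjoint_left]
      intro y hy hy'
      simp only [Finset.mem_union, Finset.mem_filter] at hy hy'
      rcases hy with hy | hy
      · have h1 := rk_lt hy.2
        rw [rk_add_e] at h1
        omega
      · omega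
  have h1 := Finset.card_union_add_card_inter (H.filter (fun y => x + e j < y))
    (H.filter (fun y => x ≤ y ∧ rk y = rk x + 2))
  have h2 : (H.filter (fun y => x + e j < y)).card = Ab H (x + e j) := rfl
  have h3 : (H.filter (fun y => x ≤ y ∧ rk y = rk x + 2)).card = N2 H x := rfl
  omega

/-- Double counting at distance two. -/
theorem double (H : Finset (Fin d → ℕ)) (x : Fin d → ℕ) (U : Finset (Fin d)) :
    ∑ j ∈ U, N1 H (x + e j) ≤ 2 * N2 H x := by
  have h1 : ∑ j ∈ U, N1 H (x + e j) =
      ((U ×ˢ (Finset.univ : Finset (Fin d))).filter (fun p => x + e p.1 + e p.2 ∈ H)).card := by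
    rw [Finset.card_filter, Finset.sum_product]
    refine Finset.sum_congr rfl (fun j _ => ?_)
    unfold N1
    rw [Finset.card_filter]
  rw [h1]
  unfold N2
  refine Finset.card_le_mul_card_image_of_maps_to
    (f := fun p : Fin d × Fin d => x + e p.1 + e p.2) ?_ 2 ?_
  · intro p hp
    simp only [Finset.mem_filter] at hp ⊢
    exact ⟨hp.2, (le_add_e x p.1).trans (le_add_e _ p.2), by rw [rk_add_e, rk_add_e]⟩
  · intro y _
    by_cases hne : ∃ p : Fin d × Fin d, x + e p.1 + e p.2 = y
    · obtain ⟨⟨j0, i0⟩, h0⟩ := hne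
      refine (Finset.card_le_card ?_).trans (Finset.card_le_two (a := (j0, i0)) (b := (i0, j0)))
      intro p hp
      simp only [Finset.mem_filter] at hp
      obtain ⟨j, i⟩ := p
      have h2 : e j + e i = e j0 + e i0 := by
        have h3 : x + (e j + e i) = x + (e j0 + e i0) := by
          rw [← add_assoc, ← add_assoc]
          exact hp.2.trans h0.symm
        exact add_left_cancel h3
      simp only [Finset.mem_insert, Finset.mem_singleton, Prod.mk.injEq]
      by_cases hj : j = j0
      · subst hj
        exact Or.inl ⟨rfl, e_inj (add_left_cancel h2)⟩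
      · by_cases hj' : j = i0
        · subst hj'
          rw [add_comm (e j0) (e j)] at h2
          exact Or.inr ⟨rfl, e_inj (add_left_cancel h2)⟩
        · exfalso
          have h4 := congrFun h2 j
          simp only [Pi.add_apply, e, Pi.single_eq_same, Pi.single_eq_of_ne hj,
            Pi.single_eq_of_ne hj'] at h4
          omega
    · push Not at hne
      rw [Finset.card_eq_zero.2]
      · norm_num
      · rw [Finset.filter_eq_empty_iff]
        intro p _
        exact hne p

end Pool.Agent.H19.CG
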