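import Mathlib

namespace Pool.Agent.H19.CG

/-! ### The arithmetic of the potential -/

/-- the parameters -/
structure Par (D A K U w : ℚ) : Prop where
  hD : 3 ≤ D
  hK0 : 0 ≤ K
  hKA : K ≤ A
  hU : (D - 1) * U = 2 * A
  hw : w = 2 * A - (D - 1) * K
  hw0 : 0 ≤ w

/-- the potential, Breaker to move -/
def the (A w : ℚ) (b : ℕ) (Y : ℚ) : ℚ := max (A * b + Y) w

/-- the potential, Maker to move -/
def kap (D A K w : ℚ) (b : ℕ) (Y : ℚ) : ℚ :=
  if b = 0 then max ((D - 1) / D * Y) w else max (A * (b - 1) + Y + K) w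

variable {D A K U w : ℚ}

theorem Par.A0 (h : Par D A K U w) : 0 ≤ A := h.hK0.trans h.hKA

theorem Par.UA (h : Par D A K U w) : U ≤ A := by
  have h1 := h.hU
  have h2 := h.hD
  have h3 := h.A0
  by_contra hc
  push Not at hc
  nlinarith

theorem w_le_kap (b : ℕ) (Y : ℚ) : w ≤ kap D A K w b Y := by
  unfold kap
  split_ifs
  · exact le_max_right _ _
  · exact le_max_right _ _

theorem kap_zero (Y : ℚ) : kap D A K w 0 Y = max ((D - 1) / D * Y) w := by
  unfold kap
  rw [if_pos rfl]

theorem kap_succ (b : ℕ) (Y : ℚ) : kap D A K w (b + 1) Y = max (A * b + Y + K) w := by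
  unfold kap
  rw [if_neg (by omega)]
  push_cast
  congr 2
  ring

theorem frac_le (h : Par D A K U w) {Y : ℚ} (hY : 0 ≤ Y) : (D - 1) / D * Y ≤ Y := by
  have hD := h.hD
  rw [div_mul_eq_mul_div, div_le_iff₀ (by linarith)]
  nlinarith

theorem kap_mono (h : Par D A K U w) {b b' : ℕ} {Y Y' : ℚ} (hb : b' ≤ b) (hY : Y' ≤ Y)
    (hY0 : 0 ≤ Y) : kap D A K w b' Y' ≤ kap D A K w b Y := by
  have hD := h.hD
  have hA := h.A0
  have hK := h.hK0
  have hf : 0 ≤ (D - 1) / D := div_nonneg (by linarith) (by linarith)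
  cases b' with
  | zero =>
    cases b with
    | zero =>
      rw [kap_zero, kap_zero]
      exact max_le_max_right _ (mul_le_mul_of_nonneg_left hY hf)
    | succ b =>
      rw [kap_zero, kap_succ]
      apply max_le_max_right
      have h1 := frac_le h hY0
      have h2 : (D - 1) / D * Y' ≤ (D - 1) / D * Y := mul_le_mul_of_nonneg_left hY hf
      have h3 : 0 ≤ A * (b : ℚ) := by positivity
      linarith
  | succ b' =>
    cases b with
    | zero => omega
    | succ b =>
      rw [kap_succ, kap_succ]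
      apply max_le_max_right
      have h1 : (b' : ℚ) ≤ b := by exact_mod_cast (by omega : b' ≤ b)
      nlinarith

/-- a claimed cover -/
theorem fresh_one (h : Par D A K U w) {b b' : ℕ} {Y Y' : ℚ} (hb : b' ≤ b + 1) (hY : Y' ≤ Y)
    (hY0 : 0 ≤ Y) : kap D A K w b' Y' ≤ the A w b Y + K := by
  have hK := h.hK0
  refine (kap_mono h hb hY hY0).trans ?_
  rw [kap_succ]
  unfold the
  apply max_le
  · have := le_max_left (A * b + Y) w
    linarith
  · have := le_max_right (A * b + Y) w
    linarith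

/-- a claimed point nearby -/
theorem fresh_two (h : Par D A K U w) {b b' : ℕ} {Y Y' : ℚ} (hb : b' ≤ b) (hY : Y' ≤ Y + U)
    (hY0 : 0 ≤ Y) (hU0 : 0 ≤ U) : kap D A K w b' Y' ≤ the A w b Y + K := by
  have hK := h.hK0
  have hD := h.hD
  have hU := h.hU
  have hUA := h.UA
  have hw := h.hw
  refine (kap_mono h hb hY (by linarith)).trans ?_
  have m1 := le_max_left (A * b + Y) w
  have m2 := le_max_right (A * b + Y) w
  cases b with
  | zero =>
    rw [kap_zero]
    unfold the
    apply max_le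
    · rw [div_mul_eq_mul_div, div_le_iff₀ (by linarith)]
      simp only [Nat.cast_zero, mul_zero, zero_add] at m1 m2 ⊢
      nlinarith
    · linarith
  | succ b =>
    rw [kap_succ]
    unfold the
    push_cast at m1 m2 ⊢
    apply max_le
    · linarith
    · linarith

/-- a claimed point far away -/
theorem fresh_three (h : Par D A K U w) {b b' : ℕ} {Y Y' : ℚ} (hb : b' ≤ b) (hY : Y' ≤ Y)
    (hY0 : 0 ≤ Y) : kap D A K w b' Y' ≤ the A w b Y := by
  have hK := h.hKA
  refine (kap_mono h hb hY hY0).trans ?_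
  have m1 := le_max_left (A * b + Y) w
  have m2 := le_max_right (A * b + Y) w
  cases b with
  | zero =>
    rw [kap_zero]
    unfold the
    apply max_le
    · simp only [Nat.cast_zero, mul_zero, zero_add] at m1 m2 ⊢
      exact (frac_le h hY0).trans m1
    · exact m2
  | succ b =>
    rw [kap_succ]
    unfold the
    push_cast at m1 m2 ⊢
    apply max_le
    · linarith
    · exact m2

/-- a real step -/
theorem real_step (h : Par D A K U w) {b b' : ℕ} {Y Y' F F' : ℚ} (hbD : (b : ℚ) < D)
    (hY0 : 0 ≤ Y) (hF : F' ≤ F)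
    (hT : (D - b) * (A * b' + Y' + K * F') ≤ (D - 1) * Y + (D - b) * (K * F))
    (hc : b ≤ 1 ∨ Y * (b - 1) ≤ (A * (b - 1) + K) * (D - b)) :
    the A w b' Y' + K * F' ≤ kap D A K w b Y + K * F := by
  have hK := h.hK0
  have hD := h.hD
  have hKF : K * F' ≤ K * F := mul_le_mul_of_nonneg_left hF hK
  have hw1 : w ≤ kap D A K w b Y := w_le_kap b Y
  have hpos : 0 < D - b := by linarith
  have key : (D - 1) * Y ≤ (D - b) * kap D A K w b Y := by
    rcases Nat.lt_or_ge b 2 with hb | hb
    · interval_cases b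
      · have h1 : (D - 1) / D * Y ≤ kap D A K w 0 Y := by
          rw [kap_zero]
          exact le_max_left _ _
        rw [div_mul_eq_mul_div, div_le_iff₀ (by linarith)] at h1
        push_cast
        linarith
      · have h1 : A * ((0 : ℕ) : ℚ) + Y + K ≤ kap D A K w (0 + 1) Y := by
          rw [kap_succ]
          exact le_max_left _ _
        push_cast at h1 ⊢
        nlinarith
    · have hc' : Y * (b - 1) ≤ (A * (b - 1) + K) * (D - b) := by
        rcases hc with hc | hc
        · omega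
        · exact hc
      obtain ⟨c, rfl⟩ : ∃ c, b = c + 1 := ⟨b - 1, by omega⟩
      have h1 : A * (c : ℚ) + Y + K ≤ kap D A K w (c + 1) Y := by
        rw [kap_succ]
        exact le_max_left _ _
      have h2 : (1 : ℚ) ≤ c := by exact_mod_cast (by omega : 1 ≤ c)
      push_cast at hc' hpos ⊢
      nlinarith [mul_le_mul_of_nonneg_left h1 hpos.le]
  have h2 : A * b' + Y' + K * F' ≤ kap D A K w b Y + K * F := by
    have h3 : (D - b) * (A * b' + Y' + K * F') ≤ (D - b) * (kap D A K w b Y + K * F) := by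
      linarith
    exact le_of_mul_le_mul_left h3 hpos
  unfold the
  rcases max_cases (A * b' + Y') w with ⟨h4, _⟩ | ⟨h4, _⟩
  · rw [h4]
    linarith
  · rw [h4]
    linarith

/-- a virtual step -/
theorem virt_step (h : Par D A K U w) {C : ℚ} {b b' : ℕ} {Y Y' F F' : ℚ} (hD6 : 6 ≤ D)
    (hKq : K * (2 * D ^ 2 - 3 * D + 2) ≤ A * (3 * D - 2))
    (hC : C * D ^ 2 = (A + K) * (D - 1) * (3 * D - 2)) (hb : 2 ≤ b) (hbD : (b : ℚ) ≤ D)
    (hF : F' ≤ F)
    (hT : D * (A * b' + Y' + K * F') ≤ (D - 1) * Y + D * (K * F))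
    (hc : (A * (b - 1) + K) * (D - b) ≤ Y * (b - 1)) :
    C + (kap D A K w b' Y' + K * F') ≤ kap D A K w b Y + K * F := by
  have hK := h.hK0
  have hA := h.A0
  have hw := h.hw
  have hKF : K * F' ≤ K * F := mul_le_mul_of_nonneg_left hF hK
  have hb2 : (2 : ℚ) ≤ b := by exact_mod_cast hb
  have hD0 : (0 : ℚ) < D := by linarith
  obtain ⟨s, hs⟩ : ∃ s : ℚ, s = b - 2 := ⟨_, rfl⟩
  have hs0 : 0 ≤ s := by linarith
  have hb' : (b : ℚ) = s + 2 := by linarith
  have hk : A * (b - 1) + Y + K ≤ kap D A K w b Y := by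
    obtain ⟨c, rfl⟩ : ∃ c, b = c + 1 := ⟨b - 1, by omega⟩
    rw [kap_succ]
    push_cast
    have := le_max_left (A * (c : ℚ) + Y + K) w
    linarith
  have h3K : 3 * K ≤ A := by
    by_contra hcc
    push Not at hcc
    have h1 : A * (3 * D - 2) ≤ 3 * K * (3 * D - 2) :=
      mul_le_mul_of_nonneg_right hcc.le (by linarith)
    have h2 : 0 ≤ K * (D - 6) := mul_nonneg hK (by linarith)
    have h3 : 0 ≤ K * (D - 6) ^ 2 := mul_nonneg hK (sq_nonneg _)
    nlinarith
  have hYA : A * (D - b) ≤ Y := by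
    have h1 : (b - 1 : ℚ) * (A * (D - b)) ≤ (b - 1 : ℚ) * Y := by
      have h2 : 0 ≤ K * (D - b) := mul_nonneg hK (by linarith)
      nlinarith
    exact le_of_mul_le_mul_left h1 (by linarith)
  have hC3 : C ≤ 3 * (A + K) := by
    by_contra hcc
    push Not at hcc
    have : 3 * (A + K) * D ^ 2 < C * D ^ 2 := by
      apply mul_lt_mul_of_pos_right hcc
      positivity
    have h2 : 0 ≤ (A + K) * (5 * D - 2) := mul_nonneg (by linarith) (by linarith)
    nlinarith
  -- the floor
  have c3 : C + (w + K * F') ≤ kap D A K w b Y + K * F := by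
    have h1 : A * (D - 1) + K ≤ A * (b - 1) + Y + K := by nlinarith
    have h2 : K * 6 ≤ K * D := mul_le_mul_of_nonneg_left hD6 hK
    have h3 : A * 5 ≤ A * (D - 1) := mul_le_mul_of_nonneg_left (by linarith) hA
    linarith
  have hT' : A * b' + Y' + K * F' ≤ (D - 1) / D * Y + K * F := by
    have h3 : D * (A * b' + Y' + K * F') ≤ D * ((D - 1) / D * Y + K * F) := by
      have h4 : D * ((D - 1) / D * Y + K * F) = (D - 1) * Y + D * (K * F) := by
        field_simp
      linarith
    exact le_of_mul_le_mul_left h3 hD0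
  have hx : ((D - 1) / D) * (A * b' + Y' + K * F') ≤ ((D - 1) / D) * ((D - 1) / D * Y + K * F) :=
    mul_le_mul_of_nonneg_left hT' (div_nonneg (by linarith) (by linarith))
  -- the two main inequalities
  have main2 : C + ((D - 1) / D) ^ 2 * Y ≤ A * (b - 1) + Y + K := by
    have h1 : (D ^ 2 * (b - 1)) * (C + ((D - 1) / D) ^ 2 * Y) ≤
        (D ^ 2 * (b - 1)) * (A * (b - 1) + Y + K) := by
      have h2 : (D ^ 2 * ((b : ℚ) - 1)) * (C + ((D - 1) / D) ^ 2 * Y) =
          (C * D ^ 2) * (b - 1) + (D - 1) ^ 2 * (Y * (b - 1)) := by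
        field_simp
      rw [h2, hC]
      have h3 : (2 * D - 1) * ((A * (b - 1) + K) * (D - b)) ≤ (2 * D - 1) * (Y * (b - 1)) :=
        mul_le_mul_of_nonneg_left hc (by linarith)
      have h5 : K * (2 * D - 1) ≤ A * (D - 1) := by
        have h6 : 3 * K * (D - 1) ≤ A * (D - 1) :=
          mul_le_mul_of_nonneg_right h3K (by linarith)
        have h7 : 0 ≤ K * (D - 2) := mul_nonneg hK (by linarith)
        nlinarith
      have h8 : 0 ≤ s * (A * (D - 1) - K * (2 * D - 1)) := mul_nonneg hs0 (by linarith)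
      have h9 : 0 ≤ (D - 1) * (s * (A * (D - 1) - K * (2 * D - 1))) :=
        mul_nonneg (by linarith) h8
      have h10 : 0 ≤ (D - 1) ^ 2 * (A * s ^ 2) :=
        mul_nonneg (sq_nonneg _) (mul_nonneg hA (sq_nonneg _))
      rw [hb'] at h3 ⊢
      nlinarith
    exact le_of_mul_le_mul_left h1 (mul_pos (by positivity) (by linarith))
  have main1 : C + (D - 1) / D * Y ≤ A * b + Y := by
    have h1 : (D ^ 2 * (b - 1)) * (C + (D - 1) / D * Y) ≤ (D ^ 2 * (b - 1)) * (A * b + Y) := by
      have h2 : (D ^ 2 * ((b : ℚ) - 1)) * (C + (D - 1) / D * Y) =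
          (C * D ^ 2) * (b - 1) + D * (D - 1) * (Y * (b - 1)) := by
        field_simp
      rw [h2, hC]
      have h3 : D * ((A * (b - 1) + K) * (D - b)) ≤ D * (Y * (b - 1)) :=
        mul_le_mul_of_nonneg_left hc hD0.le
      have h5 : K * (3 * D ^ 2 - 4 * D + 2) ≤ A * (D * (D - 1)) := by
        have h6 : 3 * K * (D * (D - 1)) ≤ A * (D * (D - 1)) :=
          mul_le_mul_of_nonneg_right h3K (mul_nonneg hD0.le (by linarith))
        have h7 : 0 ≤ K * (D - 2) := mul_nonneg hK (by linarith)
        nlinarith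
      have h8 : 0 ≤ s * (A * (D * (D - 1)) - K * (3 * D ^ 2 - 4 * D + 2)) :=
        mul_nonneg hs0 (by linarith)
      have h9 : 0 ≤ s * (A * (3 * D - 2)) :=
        mul_nonneg hs0 (mul_nonneg hA (by linarith))
      have h10 : 0 ≤ s ^ 2 * (A * (D * (D - 1))) :=
        mul_nonneg (sq_nonneg _) (mul_nonneg hA (mul_nonneg hD0.le (by linarith)))
      rw [hb'] at h3 ⊢
      nlinarith
    exact le_of_mul_le_mul_left h1 (mul_pos (by positivity) (by linarith))
  cases b' with
  | zero =>
    rw [kap_zero]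
    rcases max_cases ((D - 1) / D * Y') w with ⟨h4, _⟩ | ⟨h4, _⟩
    · rw [h4]
      push_cast at hx
      have h5 : (D - 1) / D * (K * F') + (1 / D) * (K * F') = K * F' := by
        field_simp
        ring
      have h6 : (D - 1) / D * (K * F) + (1 / D) * (K * F) = K * F := by
        field_simp
        ring
      have h7 : (1 / D) * (K * F') ≤ (1 / D) * (K * F) :=
        mul_le_mul_of_nonneg_left hKF (by positivity)
      have h8 : (D - 1) / D * (A * 0 + Y' + K * F') =
          (D - 1) / D * Y' + (D - 1) / D * (K * F') := by ring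
      have h9 : (D - 1) / D * ((D - 1) / D * Y + K * F) =
          ((D - 1) / D) ^ 2 * Y + (D - 1) / D * (K * F) := by ring
      rw [h8, h9] at hx
      linarith
    · rw [h4]
      exact c3
  | succ b' =>
    rw [kap_succ]
    rcases max_cases (A * (b' : ℚ) + Y' + K) w with ⟨h4, _⟩ | ⟨h4, _⟩
    · rw [h4]
      push_cast at hT'
      nlinarith
    · rw [h4]
      exact c3

end Pool.Agent.H19.CG
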