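import Pool.Agent.H19.CG.Low

namespace Pool.Agent.H19.CG

/-! ### From an invariant to a strategy of Maker -/

variable {d n : ℕ}

open scoped Classical

/-- The invariant after Maker's move number m (counted from 0). -/
def Ji (I : ℕ → (Fin d → ℕ) → Finset (Fin d → ℕ) → Prop) (m : ℕ) (h : List (Q d n)) : Prop :=
  ∃ (s : List (Q d n)) (x : Q d n), (s ++ [x]).Sublist (mk h) ∧ (s ++ [x]).Pairwise (· < ·) ∧
    s.length = m ∧ I m x.1 (pts h)

theorem ji_zero {I : ℕ → (Fin d → ℕ) → Finset (Fin d → ℕ) → Prop}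
    (h0 : I 0 (fun _ => 0) {fun _ => 0}) : ∃ x : Q d n, Ji I 0 [x] := by
  have hz : ∑ j : Fin d, (fun _ => 0 : Fin d → ℕ) j ≤ n := by simp
  refine ⟨⟨fun _ => 0, hz⟩, [], ⟨fun _ => 0, hz⟩, by simp [mk], by simp, rfl, ?_⟩
  have h1 : pts [(⟨fun _ => 0, hz⟩ : Q d n)] = {fun _ => 0} := by
    ext y
    simp [mem_pts, eq_comm]
  rw [h1]
  exact h0

theorem ji_step {I : ℕ → (Fin d → ℕ) → Finset (Fin d → ℕ) → Prop} {k : ℕ}
    (hstep : ∀ m x H p, rk x ≤ n → I m x H →
      (∃ z, x < z ∧ rk z ≤ n ∧ z ∉ insert p H ∧ I (m + 1) z (insert z (insert p H))) ∨ k ≤ m + 1)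
    {m : ℕ} {h : List (Q d n)} (hj : Ji I m h)
    (hl : h.length = 2 * m + 1) (p : Q d n) :
    (∃ z, z ∉ h ++ [p] ∧ Ji I (m + 1) (h ++ [p] ++ [z])) ∨ k ≤ m + 1 := by
  obtain ⟨s, x, hs, hsp, hsl, hE⟩ := hj
  rcases hstep m x.1 (pts h) p.1 x.2 hE with ⟨z, hz1, hz2, hz3, hz4⟩ | hfin
  · left
    refine ⟨⟨z, hz2⟩, ?_, s ++ [x], ⟨z, hz2⟩, ?_, ?_, by simp [hsl], ?_⟩
    · intro hmem
      apply hz3
      rw [← pts_snoc]
      exact mem_pts.2 ⟨_, hmem, rfl⟩
    · rw [mk_snoc_even]
      · exact List.Sublist.append (hs.trans (mk_prefix h [p]).sublist) (List.Sublist.refl _)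
      · simp only [List.length_append, List.length_cons, List.length_nil]
        omega
    · rw [List.pairwise_append]
      refine ⟨hsp, by simp, ?_⟩
      intro y hy w hw
      simp only [List.mem_cons, List.not_mem_nil, or_false] at hw
      subst hw
      have hxz : x < (⟨z, hz2⟩ : Q d n) := hz1
      rcases List.mem_append.1 hy with hy | hy
      · have h1 := (List.pairwise_append.1 hsp).2.2 y hy x (by simp)
        exact h1.trans hxz
      · simp only [List.mem_cons, List.not_mem_nil, or_false] at hy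
        subst hy
        exact hxz
    · rw [pts_snoc, pts_snoc]
      exact hz4
  · exact Or.inr hfin

theorem strat {I : ℕ → (Fin d → ℕ) → Finset (Fin d → ℕ) → Prop} {k : ℕ}
    (h0 : I 0 (fun _ => 0) {fun _ => 0})
    (hstep : ∀ m x H p, rk x ≤ n → I m x H →
      (∃ z, x < z ∧ rk z ≤ n ∧ z ∉ insert p H ∧ I (m + 1) z (insert z (insert p H))) ∨
        k ≤ m + 1) : SeqG (Q d n) k := by
  have hex : ∀ h : List (Q d n), ∃ x : Q d n, ((∃ y, y ∉ h) → x ∉ h) ∧
      ((∃ m, h.length = 2 * m ∧ ∃ y, y ∉ h ∧ Ji I m (h ++ [y])) →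
        ∃ m, h.length = 2 * m ∧ Ji I m (h ++ [x])) := by
    intro h
    by_cases h1 : ∃ m, h.length = 2 * m ∧ ∃ y, y ∉ h ∧ Ji I m (h ++ [y])
    · obtain ⟨m, hm, y, hy, hI⟩ := h1
      exact ⟨y, fun _ => hy, fun _ => ⟨m, hm, hI⟩⟩
    · by_cases h2 : ∃ y, y ∉ h
      · obtain ⟨y, hy⟩ := h2
        exact ⟨y, fun _ => hy, fun hh => absurd hh h1⟩
      · exact ⟨⟨fun _ => 0, by simp⟩, fun hh => absurd hh h2, fun hh => absurd hh h1⟩
  choose s hs1 hs2 using hex
  refine ⟨s, hs1, ?_⟩
  intro l hl hb
  have key : ∀ m, SeqScore l k ∨ (2 * m + 1 ≤ l.length ∧ Ji I m (l.take (2 * m + 1))) := by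
    intro m
    induction m with
    | zero =>
      right
      obtain ⟨x0, hx0⟩ := ji_zero (n := n) h0
      have hl0 : 1 ≤ l.length := List.length_pos_of_mem (hl.2 x0)
      refine ⟨by omega, ?_⟩
      obtain ⟨m, hm, hI⟩ := hs2 [] ⟨0, rfl, x0, by simp, by simpa using hx0⟩
      have hm0 : m = 0 := by
        simp only [List.length_nil] at hm
        omega
      subst hm0
      have h1 : l[0]? = some l[0] := List.getElem?_eq_getElem hl0
      have h2 := hb 0 _ rfl h1
      have h3 : l.take (2 * 0 + 1) = [] ++ [s []] := by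
        have h4 : l.take 1 = [l[0]] := by
          rw [List.take_one]
          cases l with
          | nil => simp at hl0
          | cons a t => simp
        rw [show 2 * 0 + 1 = 1 from rfl, h4, h2]
        simp
      rw [h3]
      exact hI
    | succ m ih =>
      rcases ih with hD | ⟨h1, h2⟩
      · exact Or.inl hD
      have hlen : (l.take (2 * m + 1)).length = 2 * m + 1 := by
        rw [List.length_take]
        omega
      have hsc : SeqScore l (m + 1) := by
        obtain ⟨c, x, hc, hcp, hcl, _⟩ := h2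
        exact score_of_chain hc hcp hcl
      rcases Nat.lt_or_ge (2 * m + 1) l.length with h3 | h3
      · rcases ji_step hstep h2 hlen l[2 * m + 1] with ⟨x, hx, hI⟩ | hfin
        · right
          have ht : l.take (2 * m + 1) ++ [l[2 * m + 1]] = l.take (2 * m + 2) :=
            List.take_append_getElem h3
          rw [ht] at hx hI
          have h4 : 2 * m + 2 < l.length := by
            by_contra hc
            have he : l.take (2 * m + 2) = l := List.take_of_length_le (by omega)
            apply hx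
            rw [he]
            exact hl.2 x
          have hlen2 : (l.take (2 * m + 2)).length = 2 * (m + 1) := by
            rw [List.length_take]
            omega
          obtain ⟨m', hm', hI'⟩ := hs2 (l.take (2 * m + 2)) ⟨m + 1, hlen2, x, hx, hI⟩
          have hmm : m' = m + 1 := by omega
          subst hmm
          have h5 := hb (2 * m + 2) _ (by omega) (List.getElem?_eq_getElem h4)
          have ht2 : l.take (2 * m + 2) ++ [l[2 * m + 2]] = l.take (2 * m + 3) :=
            List.take_append_getElem h4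
          rw [← h5, ht2] at hI'
          exact ⟨by omega, hI'⟩
        · exact Or.inl (score_mono hsc hfin)
      · left
        have he : l.take (2 * m + 1) = l := List.take_of_length_le h3
        obtain ⟨x0, _⟩ := ji_zero (n := n) h0
        rcases ji_step hstep h2 hlen x0 with ⟨x, hx, _⟩ | hfin
        · exfalso
          apply hx
          rw [he]
          exact List.mem_append_left _ (hl.2 x)
        · exact score_mono hsc hfin
  rcases key l.length with h | ⟨h, _⟩
  · exact h
  · omega

end Pool.Agent.H19.CG
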