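import Pool.Agent.H19.CG.Wt
import Pool.Agent.H19.CG.Str
import Pool.Agent.H19.CG.Kap

namespace Pool.Agent.H19.CG

/-! ### The strategy of Maker with multinomial weights -/

variable {d n : ℕ}

open scoped Classical

/-- the requirements on the cutoff R and the bound K -/
structure Cut (d R K : ℕ) : Prop where
  hd : 3 ≤ d
  hR : 2 ≤ R
  hK : ∀ z : Fin d → ℕ, rk z = R → mult z ≤ K
  hU : ∀ z : Fin d → ℕ, 2 ≤ rk z → rk z ≤ R → mult z ≤ 2 * (d - 1) ^ (rk z - 2)
  hKU : K ≤ 2 * (d - 1) ^ (R - 2)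

/-- the weight of a claimed cover -/
def aa (d R : ℕ) : ℚ := ((d : ℚ) - 1) ^ (R - 1)

/-- the floor -/
def ww (d R K : ℕ) : ℚ := 2 * aa d R - ((d : ℚ) - 1) * K

theorem cast_pred (hd : 3 ≤ d) (k : ℕ) : (((d - 1) ^ k : ℕ) : ℚ) = ((d : ℚ) - 1) ^ k := by
  rw [Nat.cast_pow, Nat.cast_sub (by omega), Nat.cast_one]

theorem par {R K : ℕ} (h : Cut d R K) :
    Par (d : ℚ) (aa d R) K (2 * ((d : ℚ) - 1) ^ (R - 2)) (ww d R K) := by
  have hd : (3 : ℚ) ≤ d := by exact_mod_cast h.hd
  have hp : 0 < ((d : ℚ) - 1) ^ (R - 2) := pow_pos (by linarith) _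
  have hA : aa d R = ((d : ℚ) - 1) ^ (R - 2) * ((d : ℚ) - 1) := by
    unfold aa
    rw [← pow_succ]
    congr 1
    have := h.hR
    omega
  have hKU : (K : ℚ) ≤ 2 * ((d : ℚ) - 1) ^ (R - 2) := by
    rw [← cast_pred h.hd]
    exact_mod_cast h.hKU
  refine ⟨hd, by positivity, ?_, ?_, rfl, ?_⟩
  · rw [hA]
    nlinarith
  · rw [hA]
    ring
  · unfold ww
    rw [hA]
    nlinarith

/-- the total weight -/
theorem decomp' {R K : ℕ} (h : Cut d R K) (H : Finset (Fin d → ℕ)) (x : Fin d → ℕ) :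
    (Tt R K H x : ℚ) = aa d R * N1 H x + Yn R K H x + K * Fr R H x := by
  rw [decomp (by have := h.hR; omega)]
  push_cast
  rw [← Nat.cast_pow, cast_pred h.hd]
  rfl

/-- the effect of Breaker's move on the potential -/
theorem fresh {R K : ℕ} (h : Cut d R K) (H : Finset (Fin d → ℕ)) (x p : Fin d → ℕ) :
    kap d (aa d R) K (ww d R K) (N1 (insert p H) x) (Yn R K (insert p H) x) +
      K * Fr R (insert p H) x ≤
    the (aa d R) (ww d R K) (N1 H x) (Yn R K H x) + K * Fr R H x + K := by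
  have hp := par h
  have hK := hp.hK0
  rcases ins (R := R) (K := K) (by have := h.hR; omega) h.hU H x p with
    ⟨h1, h2, h3⟩ | ⟨h1, h2, h3⟩ | ⟨h1, h2, h3⟩
  · have h2' : (Yn R K (insert p H) x : ℚ) ≤ Yn R K H x := by exact_mod_cast h2
    have h3' : (Fr R (insert p H) x : ℚ) ≤ Fr R H x := by exact_mod_cast h3
    have := fresh_one hp h1 h2' (by positivity)
    have := mul_le_mul_of_nonneg_left h3' hK
    linarith
  · have h2' : (Yn R K (insert p H) x : ℚ) ≤ Yn R K H x + 2 * ((d : ℚ) - 1) ^ (R - 2) := by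
      rw [← cast_pred h.hd]
      exact_mod_cast h2
    have h3' : (Fr R (insert p H) x : ℚ) ≤ Fr R H x := by exact_mod_cast h3
    have hU0 : 0 ≤ 2 * ((d : ℚ) - 1) ^ (R - 2) := by
      rw [← cast_pred h.hd]
      positivity
    have := fresh_two hp h1 h2' (by positivity) hU0
    have := mul_le_mul_of_nonneg_left h3' hK
    linarith
  · have h2' : (Yn R K (insert p H) x : ℚ) ≤ Yn R K H x := by exact_mod_cast h2
    have h3' : (Fr R (insert p H) x : ℚ) ≤ Fr R H x + 1 := by exact_mod_cast h3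
    have := fresh_three hp h1 h2' (by positivity)
    have := mul_le_mul_of_nonneg_left h3' hK
    linarith

/-- a real step exists -/
theorem real_ex {R K : ℕ} (h : Cut d R K) (H : Finset (Fin d → ℕ)) (x : Fin d → ℕ)
    (hb : N1 H x < d)
    (hc : N1 H x ≤ 1 ∨ (Yn R K H x : ℚ) * (N1 H x - 1) ≤
      (aa d R * (N1 H x - 1) + K) * (d - N1 H x)) :
    ∃ j, x + e j ∉ H ∧
      the (aa d R) (ww d R K) (N1 H (x + e j)) (Yn R K H (x + e j)) + K * Fr R H (x + e j) ≤
      kap d (aa d R) K (ww d R K) (N1 H x) (Yn R K H x) + K * Fr R H x := by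
  have hcard := filter_compl_card H x
  have hU : (Finset.univ.filter (fun j : Fin d => x + e j ∉ H)).Nonempty := by
    rw [← Finset.card_pos]
    omega
  obtain ⟨j, hj, hmin⟩ := Finset.exists_min_image _ (fun j => Tt R K H (x + e j)) hU
  have hjH : x + e j ∉ H := by simpa using hj
  refine ⟨j, hjH, ?_⟩
  have h1 := avg h.hK H x (Finset.univ.filter (fun j : Fin d => x + e j ∉ H))
  have h2 := Finset.card_nsmul_le_sum _ _ _ hmin
  rw [smul_eq_mul] at h2
  have h3 := h2.trans h1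
  have h4 : (((Finset.univ.filter (fun j : Fin d => x + e j ∉ H)).card : ℕ) : ℚ) =
      (d : ℚ) - N1 H x := by
    rw [eq_sub_iff_add_eq, add_comm]
    exact_mod_cast hcard
  have h5 : ((d : ℚ) - N1 H x) * (Tt R K H (x + e j) : ℚ) ≤
      ((d : ℚ) - 1) * Yn R K H x + ((d : ℚ) - N1 H x) * (K * Fr R H x) := by
    rw [← h4]
    have h6 : (((d - 1 : ℕ)) : ℚ) = (d : ℚ) - 1 := by
      have := cast_pred h.hd 1
      rwa [pow_one, pow_one] at this
    rw [← h6]
    exact_mod_cast h3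
  rw [decomp' h] at h5
  exact real_step (par h) (by exact_mod_cast hb) (by positivity)
    (by exact_mod_cast Fr_mono R H x j) h5 hc

/-- a virtual step exists -/
theorem virt_ex {R K : ℕ} (h : Cut d R K) (hd6 : 6 ≤ d) {C : ℚ}
    (hKq : (K : ℚ) * (2 * (d : ℚ) ^ 2 - 3 * d + 2) ≤ aa d R * (3 * d - 2))
    (hC : C * (d : ℚ) ^ 2 = (aa d R + K) * (d - 1) * (3 * d - 2))
    (H : Finset (Fin d → ℕ)) (x : Fin d → ℕ) (hb : 2 ≤ N1 H x)
    (hc : (aa d R * (N1 H x - 1) + K) * (d - N1 H x) ≤ (Yn R K H x : ℚ) * (N1 H x - 1)) :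
    ∃ j, C + (kap d (aa d R) K (ww d R K) (N1 H (x + e j)) (Yn R K H (x + e j)) +
        K * Fr R H (x + e j)) ≤
      kap d (aa d R) K (ww d R K) (N1 H x) (Yn R K H x) + K * Fr R H x := by
  have hne : (Finset.univ : Finset (Fin d)).Nonempty := ⟨⟨0, by omega⟩, Finset.mem_univ _⟩
  obtain ⟨j, _, hmin⟩ := Finset.exists_min_image _ (fun j => Tt R K H (x + e j)) hne
  refine ⟨j, ?_⟩
  have h1 := avg h.hK H x Finset.univ
  have h2 := Finset.card_nsmul_le_sum _ _ _ hmin
  rw [smul_eq_mul] at h2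
  have h3 := h2.trans h1
  rw [Finset.card_univ, Fintype.card_fin] at h3
  have h5 : (d : ℚ) * (Tt R K H (x + e j) : ℚ) ≤
      ((d : ℚ) - 1) * Yn R K H x + (d : ℚ) * (K * Fr R H x) := by
    have h6 : (((d - 1 : ℕ)) : ℚ) = (d : ℚ) - 1 := by
      have := cast_pred h.hd 1
      rwa [pow_one, pow_one] at this
    rw [← h6]
    exact_mod_cast h3
  rw [decomp' h] at h5
  exact virt_step (par h) (by exact_mod_cast hd6) hKq hC hb
    (by exact_mod_cast N1_le H x) (by exact_mod_cast Fr_mono R H x j) h5 hc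

/-- The choice of the next token. -/
theorem choose_exp {R K : ℕ} (h : Cut d R K) (hd6 : 6 ≤ d) {C : ℚ}
    (hKq : (K : ℚ) * (2 * (d : ℚ) ^ 2 - 3 * d + 2) ≤ aa d R * (3 * d - 2))
    (hC : C * (d : ℚ) ^ 2 = (aa d R + K) * (d - 1) * (3 * d - 2))
    (H : Finset (Fin d → ℕ)) (m B : ℚ) : ∀ (q : ℕ) (x : Fin d → ℕ), rk x + q = n →
    C * (rk x - m) + (kap d (aa d R) K (ww d R K) (N1 H x) (Yn R K H x) + K * Fr R H x) ≤ B →
    (∃ z, x < z ∧ rk z ≤ n ∧ z ∉ H ∧
      C * (rk z - (m + 1)) + (the (aa d R) (ww d R K) (N1 H z) (Yn R K H z) + K * Fr R H z) ≤ B) ∨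
    C * (n - m) + ww d R K ≤ B := by
  intro q
  induction q with
  | zero =>
    intro x hx hE
    right
    have h1 : (rk x : ℚ) = n := by
      have : rk x = n := by omega
      exact_mod_cast this
    rw [h1] at hE
    have h2 : ww d R K ≤ kap d (aa d R) K (ww d R K) (N1 H x) (Yn R K H x) := w_le_kap _ _
    have h3 : (0 : ℚ) ≤ K * Fr R H x := by positivity
    linarith
  | succ q ih =>
    intro x hx hE
    by_cases hc : N1 H x < d ∧ (N1 H x ≤ 1 ∨ (Yn R K H x : ℚ) * (N1 H x - 1) ≤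
      (aa d R * (N1 H x - 1) + K) * (d - N1 H x))
    · left
      obtain ⟨j, hj, h1⟩ := real_ex h H x hc.1 hc.2
      refine ⟨x + e j, lt_add_e x j, ?_, hj, ?_⟩
      · rw [rk_add_e]
        omega
      · rw [rk_add_e]
        push_cast
        have h5 : ((rk x : ℚ) + 1 - (m + 1)) = rk x - m := by ring
        rw [h5]
        linarith
    · have hA := (par h).A0
      have hb : 2 ≤ N1 H x ∧ (aa d R * (N1 H x - 1) + K) * (d - N1 H x) ≤
          (Yn R K H x : ℚ) * (N1 H x - 1) := by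
        have h3 : 3 ≤ d := h.hd
        have hY : (0 : ℚ) ≤ Yn R K H x := by positivity
        rcases Nat.lt_or_ge (N1 H x) d with h4 | h4
        · have h5 : ¬(N1 H x ≤ 1 ∨ (Yn R K H x : ℚ) * (N1 H x - 1) ≤
              (aa d R * (N1 H x - 1) + K) * (d - N1 H x)) :=
            fun h6 => hc ⟨h4, h6⟩
          push Not at h5
          exact ⟨by omega, h5.2.le⟩
        · have h5 : N1 H x = d := le_antisymm (N1_le H x) h4
          rw [h5]
          refine ⟨by omega, ?_⟩
          have h6 : (3 : ℚ) ≤ d := by exact_mod_cast h3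
          rw [sub_self, mul_zero]
          exact mul_nonneg hY (by linarith)
      obtain ⟨j, h1⟩ := virt_ex h hd6 hKq hC H x hb.1 hb.2
      have hE' : C * (rk (x + e j) - m) +
          (kap d (aa d R) K (ww d R K) (N1 H (x + e j)) (Yn R K H (x + e j)) +
          K * Fr R H (x + e j)) ≤ B := by
        rw [rk_add_e]
        push_cast
        have h5 : C * ((rk x : ℚ) + 1 - m) = C * (rk x - m) + C := by ring
        rw [h5]
        linarith
      rcases ih (x + e j) (by rw [rk_add_e]; omega) hE' with ⟨z, hz1, hz2, hz3, hz4⟩ | h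
      · exact Or.inl ⟨z, (lt_add_e x j).trans hz1, hz2, hz3, hz4⟩
      · exact Or.inr h

/-- the invariant -/
def Ie (C : ℚ) (R K : ℕ) (m : ℕ) (x : Fin d → ℕ) (H : Finset (Fin d → ℕ)) : Prop :=
  C * (rk x - m) + (the (aa d R) (ww d R K) (N1 H x) (Yn R K H x) + K * Fr R H x) ≤
    K * m + ww d R K

theorem start_the {R K : ℕ} (h : Cut d R K) :
    the (aa d R) (ww d R K) (N1 {fun _ => 0} (fun _ => 0 : Fin d → ℕ))
      (Yn R K {fun _ => 0} (fun _ => 0 : Fin d → ℕ)) +
      K * Fr R {fun _ => 0} (fun _ => 0 : Fin d → ℕ) = ww d R K := by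
  have h1 : ({fun _ => 0} : Finset (Fin d → ℕ)) = insert (fun _ => 0) ∅ := by simp
  rw [h1, N1_insert_self, Yn_insert_self, Fr_insert_self]
  have h2 : N1 (∅ : Finset (Fin d → ℕ)) (fun _ => 0) = 0 := by simp [N1]
  have h3 : Yn R K (∅ : Finset (Fin d → ℕ)) (fun _ => 0) = 0 := by simp [Yn]
  have h4 : Fr R (∅ : Finset (Fin d → ℕ)) (fun _ => 0) = 0 := by simp [Fr]
  rw [h2, h3, h4]
  unfold the
  simp only [Nat.cast_zero, mul_zero, add_zero]
  exact max_eq_right (par h).hw0

theorem seqG_exp {R K : ℕ} (h : Cut d R K) (hd6 : 6 ≤ d) {C : ℚ}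
    (hKq : (K : ℚ) * (2 * (d : ℚ) ^ 2 - 3 * d + 2) ≤ aa d R * (3 * d - 2))
    (hC : C * (d : ℚ) ^ 2 = (aa d R + K) * (d - 1) * (3 * d - 2)) {k : ℕ}
    (hk : ∀ t : ℕ, C * (n + 1) ≤ (C + K) * t → k ≤ t) : SeqG (Q d n) k := by
  apply strat (I := Ie C R K)
  · unfold Ie
    rw [start_the h]
    have h1 : rk (fun _ => 0 : Fin d → ℕ) = 0 := by simp [rk]
    rw [h1]
    simp
  · intro m x H p hx hI
    unfold Ie at hI
    have h1 := fresh h H x p
    have hE : C * (rk x - (m : ℚ)) + (kap d (aa d R) K (ww d R K) (N1 (insert p H) x)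
        (Yn R K (insert p H) x) + K * Fr R (insert p H) x) ≤ K * ((m : ℚ) + 1) + ww d R K := by
      linarith
    rcases choose_exp (n := n) h hd6 hKq hC (insert p H) (m : ℚ) _ (n - rk x) x (by omega) hE with
      ⟨z, hz1, hz2, hz3, hz4⟩ | hfin
    · left
      refine ⟨z, hz1, hz2, hz3, ?_⟩
      unfold Ie
      rw [N1_insert_self, Yn_insert_self, Fr_insert_self]
      push_cast
      exact hz4
    · right
      apply hk
      push_cast
      linarith

/-- The general bound: R is the cutoff and K bounds the multinomial coefficients of order R. -/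
theorem gseq_exp {R K : ℕ} (h : Cut d R K) (hd6 : 6 ≤ d)
    (hKq' : K * (2 * d ^ 2 + 2) ≤ (d - 1) ^ (R - 1) * (3 * d - 2) + K * (3 * d)) (n : ℕ) :
    ((d - 1) ^ (R - 1) + K) * (d - 1) * (3 * d - 2) * (n + 1) ≤
      (((d - 1) ^ (R - 1) + K) * (d - 1) * (3 * d - 2) + d ^ 2 * K) * gseq (Q d n) := by
  have hd' : (6 : ℚ) ≤ d := by exact_mod_cast hd6
  have hc2 : ((3 * d - 2 : ℕ) : ℚ) = 3 * (d : ℚ) - 2 := by
    push_cast [Nat.cast_sub (show 2 ≤ 3 * d by omega)]
    ring
  have hc1 : ((d - 1 : ℕ) : ℚ) = (d : ℚ) - 1 := by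
    have := cast_pred h.hd 1
    rwa [pow_one, pow_one] at this
  have hca : (((d - 1) ^ (R - 1) : ℕ) : ℚ) = aa d R := cast_pred h.hd _
  have hKq : (K : ℚ) * (2 * (d : ℚ) ^ 2 - 3 * d + 2) ≤ aa d R * (3 * d - 2) := by
    have h1 : (K : ℚ) * (2 * (d : ℚ) ^ 2 + 2) ≤ aa d R * (3 * d - 2) + K * (3 * d) := by
      rw [← hca, ← hc2]
      exact_mod_cast hKq'
    linarith
  set C : ℚ := (aa d R + K) * (d - 1) * (3 * d - 2) / (d : ℚ) ^ 2 with hCdef
  have hC : C * (d : ℚ) ^ 2 = (aa d R + K) * (d - 1) * (3 * d - 2) := by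
    rw [hCdef]
    field_simp
  have hA := (par h).A0
  have hK0 : (0 : ℚ) ≤ K := by positivity
  have hC0 : 0 ≤ C := by
    rw [hCdef]
    apply div_nonneg _ (by positivity)
    exact mul_nonneg (mul_nonneg (by linarith) (by linarith)) (by linarith)
  obtain ⟨k, hk, hmin⟩ : ∃ k : ℕ, C * (n + 1) ≤ (C + K) * k ∧
      ∀ t : ℕ, C * (n + 1) ≤ (C + K) * t → k ≤ t := by
    have hex : ∃ k : ℕ, C * (n + 1) ≤ (C + K) * k := by
      refine ⟨n + 1, ?_⟩
      push_cast
      have : (0 : ℚ) ≤ K * ((n : ℚ) + 1) := by positivity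
      nlinarith
    exact ⟨Nat.find hex, Nat.find_spec hex, fun t ht => Nat.find_min' hex ht⟩
  have h1 : k ≤ gseq (Q d n) := le_csSup ⟨n + 1, fun k hk => setG_le (SeqG.setG hk)⟩
    (seqG_exp h hd6 hKq hC hmin)
  have h2 : (k : ℚ) ≤ gseq (Q d n) := by exact_mod_cast h1
  have h3 : C * (n + 1) ≤ (C + K) * gseq (Q d n) :=
    hk.trans (mul_le_mul_of_nonneg_left h2 (by positivity))
  have h4 : (C * (d : ℚ) ^ 2) * (n + 1) ≤ (C * (d : ℚ) ^ 2 + (d : ℚ) ^ 2 * K) *
      gseq (Q d n) := by nlinarith [mul_le_mul_of_nonneg_left h3 (sq_nonneg (d : ℚ))]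
  have h5 : C * (d : ℚ) ^ 2 = ((((d - 1) ^ (R - 1) + K) * (d - 1) * (3 * d - 2) : ℕ) : ℚ) := by
    rw [hC, Nat.cast_mul, Nat.cast_mul, Nat.cast_add, hca, hc1, hc2]
  rw [h5] at h4
  exact_mod_cast h4

/-! ### No loss at all for small n -/

/-- the invariant -/
def Ih (R K : ℕ) (m : ℕ) (x : Fin d → ℕ) (H : Finset (Fin d → ℕ)) : Prop :=
  rk x = m ∧ the (aa d R) (ww d R K) (N1 H x) (Yn R K H x) + K * Fr R H x ≤ K * m + ww d R K

theorem seqG_hor {R K : ℕ} (h : Cut d R K)
    (hn : K * n < K * d + (d - 1) ^ (R - 1) * (d - 3)) : SeqG (Q d n) (n + 1) := by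
  have hn' : (K : ℚ) * n < K * d + aa d R * (d - 3) := by
    have h1 : (((d - 3 : ℕ)) : ℚ) = (d : ℚ) - 3 := by
      rw [Nat.cast_sub h.hd]
      norm_num
    unfold aa
    rw [← cast_pred h.hd, ← h1]
    exact_mod_cast hn
  apply strat (I := Ih R K)
  · unfold Ih
    rw [start_the h]
    have h1 : rk (fun _ => 0 : Fin d → ℕ) = 0 := by simp [rk]
    rw [h1]
    simp
  · intro m x H p hx hI
    obtain ⟨hrk, hI⟩ := hI
    rcases Nat.lt_or_ge m n with hm | hm
    · left
      have h1 := fresh h H x p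
      have hE : (kap d (aa d R) K (ww d R K) (N1 (insert p H) x)
          (Yn R K (insert p H) x) + K * Fr R (insert p H) x) ≤ K * ((m : ℚ) + 1) + ww d R K := by
        linarith
      have hA := (par h).A0
      have hY : (0 : ℚ) ≤ Yn R K (insert p H) x := by positivity
      have hF : (0 : ℚ) ≤ K * Fr R (insert p H) x := by positivity
      have hc : N1 (insert p H) x < d ∧ (N1 (insert p H) x ≤ 1 ∨
          (Yn R K (insert p H) x : ℚ) * (N1 (insert p H) x - 1) ≤
            (aa d R * (N1 (insert p H) x - 1) + K) * (d - N1 (insert p H) x)) := by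
        by_contra hc
        have hb : 2 ≤ N1 (insert p H) x ∧
            aa d R * (d - N1 (insert p H) x) ≤ (Yn R K (insert p H) x : ℚ) := by
          have h3 : 3 ≤ d := h.hd
          rcases Nat.lt_or_ge (N1 (insert p H) x) d with h4 | h4
          · have h5 : ¬(N1 (insert p H) x ≤ 1 ∨
                (Yn R K (insert p H) x : ℚ) * (N1 (insert p H) x - 1) ≤
                (aa d R * (N1 (insert p H) x - 1) + K) * (d - N1 (insert p H) x)) :=
              fun h6 => hc ⟨h4, h6⟩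
            push Not at h5
            refine ⟨by omega, ?_⟩
            have h6 : (2 : ℚ) ≤ N1 (insert p H) x := by exact_mod_cast (by omega : 2 ≤ N1 _ x)
            have h7 : (N1 (insert p H) x : ℚ) ≤ d := by exact_mod_cast h4.le
            have h8 : (0 : ℚ) ≤ K * (d - N1 (insert p H) x) :=
              mul_nonneg (by positivity) (by linarith)
            have h9 : ((N1 (insert p H) x : ℚ) - 1) * (aa d R * (d - N1 (insert p H) x)) ≤
                ((N1 (insert p H) x : ℚ) - 1) * Yn R K (insert p H) x := by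
              nlinarith [h5.2]
            exact le_of_mul_le_mul_left h9 (by linarith)
          · have h5 : N1 (insert p H) x = d := le_antisymm (N1_le _ x) h4
            rw [h5]
            exact ⟨by omega, by simp⟩
        obtain ⟨c, hcc⟩ : ∃ c, N1 (insert p H) x = c + 1 := ⟨N1 (insert p H) x - 1, by omega⟩
        rw [hcc] at hb hE
        rw [kap_succ] at hE
        have h6 := le_max_left (aa d R * (c : ℚ) + Yn R K (insert p H) x + K) (ww d R K)
        have h7 : (m : ℚ) + 1 ≤ n := by exact_mod_cast hm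
        have h8 : (K : ℚ) * (m + 1) ≤ K * n := mul_le_mul_of_nonneg_left h7 (by positivity)
        have h9 := hb.2
        push_cast at h9
        have h10 : ww d R K = 2 * aa d R - ((d : ℚ) - 1) * K := rfl
        nlinarith
      obtain ⟨j, hj, h2⟩ := real_ex h (insert p H) x hc.1 hc.2
      refine ⟨x + e j, lt_add_e x j, by rw [rk_add_e]; omega, hj, by rw [rk_add_e]; omega, ?_⟩
      rw [N1_insert_self, Yn_insert_self, Fr_insert_self]
      push_cast
      linarith
    · right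
      omega

theorem gseq_hor {R K : ℕ} (h : Cut d R K)
    (hn : K * n < K * d + (d - 1) ^ (R - 1) * (d - 3)) :
    gseq (Q d n) = n + 1 ∧ gset (Q d n) = n + 1 := by
  have h1 := seqG_hor h hn
  constructor
  · apply le_antisymm
    · apply csSup_le'
      intro k hk
      exact setG_le (SeqG.setG hk)
    · exact le_csSup ⟨n + 1, fun k hk => setG_le (SeqG.setG hk)⟩ h1
  · apply le_antisymm
    · apply csSup_le'
      intro k hk
      exact setG_le hk
    · exact le_csSup ⟨n + 1, fun k hk => setG_le hk⟩ h1.setG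

end Pool.Agent.H19.CG
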