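import Pool.Agent.H19.CG.Rec

namespace Pool.Agent.H19.CG

variable {n : ℕ}

theorem mk_append {P : Type} : ∀ (h t : List P), h.length % 2 = 0 → mk (h ++ t) = mk h ++ mk t
  | [], t, _ => by simp [mk]
  | [a], t, hl => by simp at hl
  | a :: b :: l, t, hl => by
    have hl' : l.length % 2 = 0 := by
      simp only [List.length_cons] at hl
      omega
    simp only [List.cons_append, mk, mk_append l t hl']

instance finQ (d n : ℕ) : Finite (Q d n) := by
  have hinj : Function.Injective (fun (x : Q d n) (i : Fin d) =>
      (⟨x.1 i, by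
        have h1 := x.2
        have h2 : x.1 i ≤ ∑ j, x.1 j := Finset.single_le_sum (fun _ _ => Nat.zero_le _)
          (Finset.mem_univ i)
        omega⟩ : Fin (n + 1))) := by
    intro x y h
    apply Subtype.ext
    funext i
    have := congrFun h i
    simpa using this
  exact Finite.of_injective _ hinj

/-- what is true of a history of complete rounds -/
structure St (s : List (Q 3 n) → Q 3 n) (h : List (Q 3 n)) (R : List (Rc n)) : Prop where
  nd : h.Nodup
  ev : h.length % 2 = 0
  bm : ByMaker s h
  ok : Ok R
  cl : ∀ x, Cl R x ↔ x ∈ h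
  me : mk h = (R.map Rc.z).reverse

theorem byMaker_one {s : List (Q 3 n) → Q 3 n} {h : List (Q 3 n)} (hb : ByMaker s h) :
    ByMaker s (h ++ [s h]) := by
  intro i x hi hx
  by_cases hc : i < h.length
  · rw [List.getElem?_append_left hc] at hx
    rw [List.take_append_of_le_length hc.le]
    exact hb i x hi hx
  · rw [List.getElem?_append_right (by omega)] at hx
    have he : i = h.length := by
      by_contra hne
      rw [List.getElem?_eq_none (by simp only [List.length_cons, List.length_nil]; omega)] at hx
      exact absurd hx (by simp)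
    subst he
    simp only [Nat.sub_self, List.getElem?_cons_zero, Option.some.injEq] at hx
    rw [← hx]
    simp

theorem byMaker_two {s : List (Q 3 n) → Q 3 n} {h : List (Q 3 n)} (hb : ByMaker s h)
    (he : h.length % 2 = 0) (b : Q 3 n) : ByMaker s (h ++ [s h, b]) := by
  intro i x hi hx
  by_cases hc : i < h.length
  · rw [List.getElem?_append_left hc] at hx
    rw [List.take_append_of_le_length hc.le]
    exact hb i x hi hx
  · rw [List.getElem?_append_right (by omega)] at hx
    have he : i = h.length := by
      by_contra hne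
      have h2 : h.length + 2 ≤ i := by omega
      rw [List.getElem?_eq_none (by simp only [List.length_cons, List.length_nil]; omega)] at hx
      exact absurd hx (by simp)
    subst he
    simp only [Nat.sub_self, List.getElem?_cons_zero, Option.some.injEq] at hx
    rw [← hx]
    simp

theorem play_exists {s : List (Q 3 n) → Q 3 n} (hs : Legal s) : ∀ (m : ℕ) (h : List (Q 3 n))
    (R : List (Rc n)), St s h R → Nat.card (Q 3 n) ≤ h.length + m →
    ∃ (l : List (Q 3 n)) (R' : List (Rc n)), IsPlay l ∧ ByMaker s l ∧ Ok R' ∧
      mk l = (R'.map Rc.z).reverse := by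
  classical
  intro m
  induction m using Nat.strong_induction_on with
  | _ m ih =>
    intro h R hst hm
    by_cases hall : ∀ x, x ∈ h
    · exact ⟨h, R, ⟨hst.nd, hall⟩, hst.bm, hst.ok, hst.me⟩
    · push Not at hall
      obtain ⟨x0, hx0⟩ := hall
      have hz : s h ∉ h := hs h ⟨x0, hx0⟩
      have hzc : ¬ Cl R (s h) := fun hc => hz ((hst.cl _).1 hc)
      have : Fintype (Q 3 n) := Fintype.ofFinite _
      rcases reply hst.ok hzc with ⟨r, hrz, hrb, hrn, hok⟩ | ⟨hfin, r, hrz, hrb, hok⟩
      · have hbh : r.b ∉ h := fun hc => hrb ((hst.cl _).2 hc)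
        have hnd : (h ++ [s h, r.b]).Nodup := by
          rw [List.nodup_append]
          refine ⟨hst.nd, by simp [Ne.symm hrn], ?_⟩
          intro a ha b hb hab
          subst hab
          simp only [List.mem_cons, List.not_mem_nil, or_false] at hb
          rcases hb with rfl | rfl
          · exact hz ha
          · exact hbh ha
        have hle : (h ++ [s h, r.b]).length ≤ Nat.card (Q 3 n) := by
          rw [Nat.card_eq_fintype_card]
          exact hnd.length_le_card
        simp only [List.length_append, List.length_cons, List.length_nil] at hle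
        refine ih (m - 2) (by omega) (h ++ [s h, r.b]) (r :: R) ⟨hnd, ?_, ?_, hok, ?_, ?_⟩ ?_
        · simp only [List.length_append, List.length_cons, List.length_nil]
          have := hst.ev
          omega
        · exact byMaker_two hst.bm hst.ev _
        · intro x
          rw [Cl_cons, hst.cl, hrz]
          simp only [List.mem_append, List.mem_cons, List.not_mem_nil, or_false]
          tauto
        · rw [mk_append _ _ hst.ev, hst.me]
          simp [CG.mk, hrz]
        · simp only [List.length_append, List.length_cons, List.length_nil]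
          omega
      · refine ⟨h ++ [s h], r :: R, ⟨?_, ?_⟩, byMaker_one hst.bm, hok, ?_⟩
        · rw [List.nodup_append]
          refine ⟨hst.nd, by simp, ?_⟩
          intro a ha b hb hab
          subst hab
          simp only [List.mem_cons, List.not_mem_nil, or_false] at hb
          exact hz (hb ▸ ha)
        · intro x
          rcases hfin x with rfl | hc
          · simp
          · exact List.mem_append_left _ ((hst.cl x).1 hc)
        · rw [mk_append _ _ hst.ev, hst.me]
          simp [CG.mk, hrz]

theorem score_le {k : ℕ} (h : SeqG (Q 3 n) k) : 8 * k ≤ 7 * (n + 2) := by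
  obtain ⟨s, hs, hk⟩ := h
  obtain ⟨l, R, hl, hb, hok, hmk⟩ := play_exists hs (Nat.card (Q 3 n)) [] []
    ⟨List.nodup_nil, rfl, by intro i x _ hx; simp at hx, trivial,
      by intro x; simp [Cl], by simp [CG.mk]⟩ (by simp)
  obtain ⟨c, hc, hp, hlen⟩ := hk l hl hb
  rw [hmk] at hc
  have hc' : c.reverse.Sublist (R.map Rc.z) := by
    have := hc.reverse
    rwa [List.reverse_reverse] at this
  obtain ⟨q, hq, hqe⟩ := List.sublist_map_iff.1 hc'
  have hqp : q.Pairwise (fun a b => b.z < a.z) := by
    have h1 : c.reverse.Pairwise (fun a b => b < a) := List.pairwise_reverse.2 hp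
    rw [hqe, List.pairwise_map] at h1
    exact h1
  have hql : q.length = k := by
    have := congrArg List.length hqe
    rw [List.length_reverse, List.length_map, hlen] at this
    exact this.symm
  cases q with
  | nil =>
    simp only [List.length_nil] at hql
    omega
  | cons r q' =>
    have h2 := chain_bound hok _ hq hqp r q' rfl
    have h3 := lv_le r.z
    have hrm : r ∈ R := hq.subset (by simp)
    have h4 := dep_pos (ok_mem hok r hrm).1
    rw [hql] at h2
    omega

theorem seqG_zero : SeqG (Q 3 n) 0 := by
  classical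
  have : ∀ h : List (Q 3 n), ∃ y : Q 3 n, (∃ x, x ∉ h) → y ∉ h := by
    intro h
    by_cases hx : ∃ x, x ∉ h
    · obtain ⟨x, hx⟩ := hx
      exact ⟨x, fun _ => hx⟩
    · exact ⟨⟨fun _ => 0, by simp⟩, fun hh => absurd hh hx⟩
  choose f hf using this
  exact ⟨f, hf, fun l _ _ => ⟨[], List.nil_sublist _, List.Pairwise.nil, rfl⟩⟩

theorem gseq_le (n : ℕ) : 8 * gseq (Q 3 n) ≤ 7 * (n + 2) := by
  have hne : {k | SeqG (Q 3 n) k}.Nonempty := ⟨0, seqG_zero⟩
  have hbd : BddAbove {k | SeqG (Q 3 n) k} := ⟨7 * (n + 2), fun k hk => by
    have := score_le hk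
    omega⟩
  exact score_le (Nat.sSup_mem hne hbd)

theorem le_ht (d n : ℕ) (hd : 0 < d) : n + 1 ≤ ht (Q d n) := by
  have : Fintype (Q d n) := Fintype.ofFinite _
  apply le_csSup
  · refine ⟨Fintype.card (Q d n), ?_⟩
    rintro k ⟨s, hs, rfl⟩
    have hnd : s.Nodup := hs.imp (fun h => h.ne)
    exact hnd.length_le_card
  · refine ⟨List.ofFn (fun i : Fin (n + 1) => (⟨fun j => if j = ⟨0, hd⟩ then i.1 else 0, ?_⟩ : Q d n)),
      ?_, by simp⟩
    · rw [Finset.sum_ite_eq' Finset.univ (⟨0, hd⟩ : Fin d) (fun _ => i.1)]
      simp only [Finset.mem_univ, if_true]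
      omega
    · rw [List.pairwise_ofFn]
      intro i j hij
      rw [← Subtype.coe_lt_coe]
      refine lt_of_le_of_ne ?_ ?_
      · intro t
        show (if t = ⟨0, hd⟩ then i.1 else 0) ≤ (if t = ⟨0, hd⟩ then j.1 else 0)
        have : i.1 < j.1 := hij
        split_ifs <;> omega
      · intro he
        have h0 := congrFun he ⟨0, hd⟩
        simp only [if_true] at h0
        have : i.1 < j.1 := hij
        omega

theorem main (n : ℕ) : 8 * gseq (Q 3 n) ≤ 7 * (n + 2) ∧ (7 ≤ n → gseq (Q 3 n) < ht (Q 3 n)) := by
  refine ⟨gseq_le n, fun hn => ?_⟩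
  have h1 := gseq_le n
  have h2 := le_ht 3 n (by norm_num)
  omega

end Pool.Agent.H19.CG
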