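import Pool.Agent.H19.CG.Pos
import Pool.Agent.H19.CG.Cnt
import Pool.Agent.H19.CG.Ari

namespace Pool.Agent.H19.CG

/-! ### Maker's strategy in general: the next token has as few claimed covers as possible -/

variable {d n : ℕ}

open scoped Classical

theorem filter_compl_card (H : Finset (Fin d → ℕ)) (x : Fin d → ℕ) :
    N1 H x + (Finset.univ.filter (fun j : Fin d => x + e j ∉ H)).card = d := by
  unfold N1
  have := Finset.card_filter_add_card_filter_not (s := (Finset.univ : Finset (Fin d)))
    (fun j => x + e j ∈ H)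
  rw [Finset.card_univ, Fintype.card_fin] at this
  exact this

/-- The choice of the next token. -/
theorem choose_next (hd : 3 ≤ d) (H : Finset (Fin d → ℕ)) (T m : ℤ) : ∀ (q : ℕ) (x : Fin d → ℕ),
    rk x + q = n →
    CC d * (rk x - m) + RR d (N1 H x) ≤ 2 * T - 2 * Ab H x →
    (∃ z, x < z ∧ rk z ≤ n ∧ z ∉ H ∧
      CC d * (rk z - (m + 1)) + PP d (N1 H z) ≤ 2 * T - 2 * Ab H z) ∨
    CC d * (n - m) ≤ 2 * T := by
  intro q
  induction q with
  | zero =>
    intro x hx hE
    right
    have h1 : (rk x : ℤ) = n := by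
      have : rk x = n := by omega
      exact_mod_cast this
    rw [h1] at hE
    have h2 := RR_nonneg hd (N1 H x)
    have h3 : (0 : ℤ) ≤ Ab H x := by positivity
    linarith
  | succ q ih =>
    intro x hx hE
    by_cases hU : (Finset.univ.filter (fun j : Fin d => x + e j ∉ H)).Nonempty
    · left
      obtain ⟨j, hj, hmin⟩ := Finset.exists_min_image _ (fun j => N1 H (x + e j)) hU
      have hjH : x + e j ∉ H := by simpa using hj
      refine ⟨x + e j, lt_add_e x j, ?_, hjH, ?_⟩
      · rw [rk_add_e]
        omega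
      · have hl := leave H x j
        have hdb := double H x (Finset.univ.filter (fun j : Fin d => x + e j ∉ H))
        have hcu : (Finset.univ.filter (fun j : Fin d => x + e j ∉ H)).card * N1 H (x + e j) ≤
            2 * N2 H x := by
          refine le_trans ?_ hdb
          rw [← smul_eq_mul]
          exact Finset.card_nsmul_le_sum _ _ _ hmin
        have hs := step_one hd (filter_compl_card H x) (Finset.card_pos.2 hU) (N1_le H (x + e j))
          hcu (N1_le_N2 H x j)
        rw [rk_add_e]
        have hl' : (Ab H (x + e j) : ℤ) + N1 H x + N2 H x ≤ Ab H x + N1 H (x + e j) := by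
          exact_mod_cast hl
        push_cast
        have h5 : ((rk x : ℤ) + 1 - (m + 1)) = rk x - m := by ring
        rw [h5]
        linarith
    · rw [Finset.not_nonempty_iff_eq_empty] at hU
      have hN : N1 H x = d := by
        have := filter_compl_card H x
        rw [hU, Finset.card_empty] at this
        omega
      have hne : (Finset.univ : Finset (Fin d)).Nonempty := ⟨⟨0, by omega⟩, Finset.mem_univ _⟩
      obtain ⟨j, _, hmin⟩ := Finset.exists_min_image _ (fun j => N1 H (x + e j)) hne
      have hl := leave H x j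
      have hdb := double H x Finset.univ
      have hcu : d * N1 H (x + e j) ≤ 2 * N2 H x := by
        refine le_trans ?_ hdb
        have := Finset.card_nsmul_le_sum _ _ _ hmin
        rwa [smul_eq_mul, Finset.card_univ, Fintype.card_fin] at this
      have hs := step_two hd hcu (N1_le_N2 H x j)
      have hl' : (Ab H (x + e j) : ℤ) + N1 H x + N2 H x ≤ Ab H x + N1 H (x + e j) := by
        exact_mod_cast hl
      rw [hN] at hE hl'
      have hE' : CC d * (rk (x + e j) - m) + RR d (N1 H (x + e j)) ≤
          2 * T - 2 * Ab H (x + e j) := by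
        rw [rk_add_e]
        push_cast
        have h5 : CC d * ((rk x : ℤ) + 1 - m) = CC d * (rk x - m) + CC d := by ring
        rw [h5]
        linarith
      rcases ih (x + e j) (by rw [rk_add_e]; omega) hE' with ⟨z, hz1, hz2, hz3, hz4⟩ | h
      · exact Or.inl ⟨z, (lt_add_e x j).trans hz1, hz2, hz3, hz4⟩
      · exact Or.inr h

/-- the set of the claimed points -/
noncomputable def pts (h : List (Q d n)) : Finset (Fin d → ℕ) := (h.map Subtype.val).toFinset

theorem mem_pts {h : List (Q d n)} {y : Fin d → ℕ} : y ∈ pts h ↔ ∃ x ∈ h, x.1 = y := by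
  simp [pts]

theorem pts_snoc (h : List (Q d n)) (p : Q d n) : pts (h ++ [p]) = insert p.1 (pts h) := by
  ext y
  rw [Finset.mem_insert, mem_pts, mem_pts]
  constructor
  · rintro ⟨x, hx, rfl⟩
    rcases List.mem_append.1 hx with hx | hx
    · exact Or.inr ⟨x, hx, rfl⟩
    · simp only [List.mem_cons, List.not_mem_nil, or_false] at hx
      subst hx
      exact Or.inl rfl
  · rintro (rfl | ⟨x, hx, rfl⟩)
    · exact ⟨p, List.mem_append_right _ (by simp), rfl⟩
    · exact ⟨x, List.mem_append_left _ hx, rfl⟩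

theorem N1_insert_le (H : Finset (Fin d → ℕ)) (x p : Fin d → ℕ) :
    N1 (insert p H) x ≤ N1 H x + 1 := by
  unfold N1
  have h1 : (Finset.univ.filter (fun j : Fin d => x + e j ∈ insert p H)) ⊆
      (Finset.univ.filter (fun j : Fin d => x + e j ∈ H)) ∪
      (Finset.univ.filter (fun j : Fin d => x + e j = p)) := by
    intro j hj
    simp only [Finset.mem_filter, Finset.mem_univ, true_and, Finset.mem_insert,
      Finset.mem_union] at hj ⊢
    tauto
  have h2 : (Finset.univ.filter (fun j : Fin d => x + e j = p)).card ≤ 1 := by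
    rw [Finset.card_le_one]
    intro a ha b hb
    simp only [Finset.mem_filter, Finset.mem_univ, true_and] at ha hb
    exact e_inj (add_left_cancel (ha.trans hb.symm))
  exact (Finset.card_le_card h1).trans ((Finset.card_union_le _ _).trans (by omega))

theorem Ab_insert_le (H : Finset (Fin d → ℕ)) (x p : Fin d → ℕ) :
    Ab (insert p H) x ≤ Ab H x + 1 := by
  unfold Ab
  rw [Finset.filter_insert]
  split_ifs
  · exact Finset.card_insert_le _ _
  · omega

theorem N1_insert_self (H : Finset (Fin d → ℕ)) (x : Fin d → ℕ) :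
    N1 (insert x H) x = N1 H x := by
  unfold N1
  congr 1
  ext j
  simp only [Finset.mem_filter, Finset.mem_univ, true_and, Finset.mem_insert]
  have := (lt_add_e x j).ne'
  tauto

theorem Ab_insert_self (H : Finset (Fin d → ℕ)) (x : Fin d → ℕ) :
    Ab (insert x H) x = Ab H x := by
  unfold Ab
  rw [Finset.filter_insert, if_neg (lt_irrefl x)]

/-- The invariant after Maker's move number m (counted from 0). -/
def Jn (m : ℕ) (h : List (Q d n)) : Prop :=
  ∃ (s : List (Q d n)) (x : Q d n), (s ++ [x]).Sublist (mk h) ∧ (s ++ [x]).Pairwise (· < ·) ∧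
    s.length = m ∧ CC d * (rk x.1 - m) + PP d (N1 (pts h) x.1) ≤ 2 * m - 2 * Ab (pts h) x.1

/-- enough levels are reached -/
def Done (l : List (Q d n)) : Prop := ∃ t, SeqScore l t ∧ CC d * (n + 1) ≤ (CC d + 2) * t

theorem jn_zero (hd : 3 ≤ d) : ∃ x : Q d n, Jn 0 [x] := by
  have hz : ∑ j : Fin d, (fun _ => 0 : Fin d → ℕ) j ≤ n := by simp
  refine ⟨⟨fun _ => 0, hz⟩, [], ⟨fun _ => 0, hz⟩, by simp [mk], by simp, rfl, ?_⟩
  have h1 : pts [(⟨fun _ => 0, hz⟩ : Q d n)] = insert (fun _ => 0) ∅ := by
    ext y
    simp [mem_pts, eq_comm]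
  have h2 : N1 (∅ : Finset (Fin d → ℕ)) (fun _ => 0) = 0 := by simp [N1]
  have h3 : Ab (∅ : Finset (Fin d → ℕ)) (fun _ => 0) = 0 := by simp [Ab]
  have h4 : rk (fun _ => 0 : Fin d → ℕ) = 0 := by simp [rk]
  rw [h1, N1_insert_self, Ab_insert_self, h2, h3, h4, PP_zero]
  simp

theorem score_of_chain {s : List (Q d n)} {x : Q d n} {l : List (Q d n)} {k m : ℕ}
    (h : (s ++ [x]).Sublist (mk (l.take k))) (hp : (s ++ [x]).Pairwise (· < ·))
    (hl : s.length = m) : SeqScore l (m + 1) := by
  refine ⟨s ++ [x], ?_, hp, by simp [hl]⟩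
  refine h.trans ?_
  have := (mk_prefix (l.take k) (l.drop k)).sublist
  rwa [List.take_append_drop] at this

theorem jn_step (hd : 3 ≤ d) {m : ℕ} {h : List (Q d n)} (hj : Jn m h)
    (hl : h.length = 2 * m + 1) (p : Q d n) :
    (∃ z, z ∉ h ++ [p] ∧ Jn (m + 1) (h ++ [p] ++ [z])) ∨
      CC d * ((n : ℤ) - m) ≤ 2 * ((m : ℤ) + 1) := by
  obtain ⟨s, x, hs, hsp, hsl, hE⟩ := hj
  have hx2 : rk x.1 ≤ n := x.2
  have hE' : CC d * (rk x.1 - (m : ℤ)) + RR d (N1 (pts (h ++ [p])) x.1) ≤
      2 * ((m : ℤ) + 1) - 2 * Ab (pts (h ++ [p])) x.1 := by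
    rw [pts_snoc]
    have h1 := RR_le hd (N1_insert_le (pts h) x.1 p.1)
    have h2 : (Ab (insert p.1 (pts h)) x.1 : ℤ) ≤ Ab (pts h) x.1 + 1 := by
      exact_mod_cast Ab_insert_le (pts h) x.1 p.1
    linarith
  rcases choose_next (n := n) hd (pts (h ++ [p])) ((m : ℤ) + 1) m (n - rk x.1) x.1 (by omega) hE'
    with ⟨z, hz1, hz2, hz3, hz4⟩ | hfin
  · left
    refine ⟨⟨z, hz2⟩, ?_, s ++ [x], ⟨z, hz2⟩, ?_, ?_, by simp [hsl], ?_⟩
    · intro hmem
      exact hz3 (mem_pts.2 ⟨_, hmem, rfl⟩)
    · rw [mk_snoc_even]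
      · exact List.Sublist.append (hs.trans (mk_prefix h [p]).sublist) (List.Sublist.refl _)
      · simp only [List.length_append, List.length_cons, List.length_nil]
        omega
    · rw [List.pairwise_append]
      refine ⟨hsp, by simp, ?_⟩
      intro y hy w hw
      simp only [List.mem_cons, List.not_mem_nil, or_false] at hw
      subst hw
      have hxz : x < (⟨z, hz2⟩ : Q d n) := hz1
      rcases List.mem_append.1 hy with hy | hy
      · have h1 := (List.pairwise_append.1 hsp).2.2 y hy x (by simp)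
        exact h1.trans hxz
      · simp only [List.mem_cons, List.not_mem_nil, or_false] at hy
        subst hy
        exact hxz
    · rw [pts_snoc, N1_insert_self, Ab_insert_self]
      push_cast
      exact hz4
  · exact Or.inr hfin

theorem done_of {l : List (Q d n)} {m : ℕ} (hs : SeqScore l (m + 1))
    (hf : CC d * ((n : ℤ) - m) ≤ 2 * ((m : ℤ) + 1)) : Done l := by
  refine ⟨m + 1, hs, ?_⟩
  push_cast
  nlinarith

theorem score_mono {P : Type} [PartialOrder P] {l : List P} {t k : ℕ} (h : SeqScore l t)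
    (hk : k ≤ t) : SeqScore l k := by
  obtain ⟨s, hs, hp, hl⟩ := h
  refine ⟨s.take k, (List.take_sublist k s).trans hs, hp.sublist (List.take_sublist k s), ?_⟩
  rw [List.length_take, hl]
  omega

theorem seqG_low (hd : 3 ≤ d) {k : ℕ}
    (hk : ∀ t : ℕ, CC d * (n + 1) ≤ (CC d + 2) * t → k ≤ t) : SeqG (Q d n) k := by
  have hex : ∀ h : List (Q d n), ∃ x : Q d n, ((∃ y, y ∉ h) → x ∉ h) ∧
      ((∃ m, h.length = 2 * m ∧ ∃ y, y ∉ h ∧ Jn m (h ++ [y])) →
        ∃ m, h.length = 2 * m ∧ Jn m (h ++ [x])) := by
    intro h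
    by_cases h1 : ∃ m, h.length = 2 * m ∧ ∃ y, y ∉ h ∧ Jn m (h ++ [y])
    · obtain ⟨m, hm, y, hy, hI⟩ := h1
      exact ⟨y, fun _ => hy, fun _ => ⟨m, hm, hI⟩⟩
    · by_cases h2 : ∃ y, y ∉ h
      · obtain ⟨y, hy⟩ := h2
        exact ⟨y, fun _ => hy, fun hh => absurd hh h1⟩
      · exact ⟨⟨fun _ => 0, by simp⟩, fun hh => absurd hh h2, fun hh => absurd hh h1⟩
  choose s hs1 hs2 using hex
  refine ⟨s, hs1, ?_⟩
  intro l hl hb
  have key : ∀ m, Done l ∨ (2 * m + 1 ≤ l.length ∧ Jn m (l.take (2 * m + 1))) := by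
    intro m
    induction m with
    | zero =>
      right
      obtain ⟨x0, hx0⟩ := jn_zero (n := n) hd
      have hl0 : 1 ≤ l.length := List.length_pos_of_mem (hl.2 x0)
      refine ⟨by omega, ?_⟩
      obtain ⟨m, hm, hI⟩ := hs2 [] ⟨0, rfl, x0, by simp, by simpa using hx0⟩
      have hm0 : m = 0 := by
        simp only [List.length_nil] at hm
        omega
      subst hm0
      have h1 : l[0]? = some l[0] := List.getElem?_eq_getElem hl0
      have h2 := hb 0 _ rfl h1
      have h3 : l.take (2 * 0 + 1) = [] ++ [s []] := by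
        have h4 : l.take 1 = [l[0]] := by
          rw [List.take_one]
          cases l with
          | nil => simp at hl0
          | cons a t => simp
        rw [show 2 * 0 + 1 = 1 from rfl, h4, h2]
        simp
      rw [h3]
      exact hI
    | succ m ih =>
      rcases ih with hD | ⟨h1, h2⟩
      · exact Or.inl hD
      have hlen : (l.take (2 * m + 1)).length = 2 * m + 1 := by
        rw [List.length_take]
        omega
      have hsc : SeqScore l (m + 1) := by
        obtain ⟨c, x, hc, hcp, hcl, _⟩ := h2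
        exact score_of_chain hc hcp hcl
      rcases Nat.lt_or_ge (2 * m + 1) l.length with h3 | h3
      · rcases jn_step hd h2 hlen l[2 * m + 1] with ⟨x, hx, hI⟩ | hfin
        · right
          have ht : l.take (2 * m + 1) ++ [l[2 * m + 1]] = l.take (2 * m + 2) :=
            List.take_append_getElem h3
          rw [ht] at hx hI
          have h4 : 2 * m + 2 < l.length := by
            by_contra hc
            have he : l.take (2 * m + 2) = l := List.take_of_length_le (by omega)
            apply hx
            rw [he]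
            exact hl.2 x
          have hlen2 : (l.take (2 * m + 2)).length = 2 * (m + 1) := by
            rw [List.length_take]
            omega
          obtain ⟨m', hm', hI'⟩ := hs2 (l.take (2 * m + 2)) ⟨m + 1, hlen2, x, hx, hI⟩
          have hmm : m' = m + 1 := by omega
          subst hmm
          have h5 := hb (2 * m + 2) _ (by omega) (List.getElem?_eq_getElem h4)
          have ht2 : l.take (2 * m + 2) ++ [l[2 * m + 2]] = l.take (2 * m + 3) :=
            List.take_append_getElem h4
          rw [← h5, ht2] at hI'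
          exact ⟨by omega, hI'⟩
        · exact Or.inl (done_of hsc hfin)
      · -- the board is full: any further claim is a repetition
        left
        have he : l.take (2 * m + 1) = l := List.take_of_length_le h3
        obtain ⟨x0, _⟩ := jn_zero (n := n) hd
        rcases jn_step hd h2 hlen x0 with ⟨x, hx, _⟩ | hfin
        · exfalso
          apply hx
          rw [he]
          exact List.mem_append_left _ (hl.2 x)
        · exact done_of hsc hfin
  rcases key l.length with ⟨t, ht, hf⟩ | ⟨h, _⟩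
  · exact score_mono ht (hk t hf)
  · omega

theorem gseq_low (hd : 3 ≤ d) (n : ℕ) : CC d * (n + 1) ≤ (CC d + 2) * gseq (Q d n) := by
  have hC := CC_le hd
  obtain ⟨k, hk, hmin⟩ : ∃ k : ℕ, CC d * (n + 1) ≤ (CC d + 2) * k ∧
      ∀ t : ℕ, CC d * (n + 1) ≤ (CC d + 2) * t → k ≤ t := by
    have hex : ∃ k : ℕ, CC d * (n + 1) ≤ (CC d + 2) * k := by
      refine ⟨n + 1, ?_⟩
      push_cast
      nlinarith
    exact ⟨Nat.find hex, Nat.find_spec hex, fun t ht => Nat.find_min' hex ht⟩
  have h1 : k ≤ gseq (Q d n) := le_csSup ⟨n + 1, fun k hk => setG_le (SeqG.setG hk)⟩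
    (seqG_low hd hmin)
  have h2 : (k : ℤ) ≤ gseq (Q d n) := by exact_mod_cast h1
  nlinarith

end Pool.Agent.H19.CG
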