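import Pool.Agent.H19.CG.Str

namespace Pool.Agent.H19.CG

/-! ### The general bound, rounded to even potentials -/

variable {d n : ℕ}

open scoped Classical

/-- the least even number which is at least a -/
def ev2 (a : ℤ) : ℤ := 2 * ((a + 1) / 2)

theorem le_ev2 (a : ℤ) : a ≤ ev2 a := by
  unfold ev2
  omega

theorem ev2_le {a b : ℤ} (h : a ≤ 2 * b) : ev2 a ≤ 2 * b := by
  unfold ev2
  omega

theorem ev2_mono {a b : ℤ} (h : a ≤ b) : ev2 a ≤ ev2 b := by
  unfold ev2
  omega

/-- the rounded potential, Breaker to move -/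
def Pe (d k : ℕ) : ℤ := ev2 (PP d k)

/-- the rounded potential, Maker to move -/
def Re (d b : ℕ) : ℤ := ev2 (RR d b)

/-- twice the price of a level -/
def Ce (d : ℕ) : ℤ := Re d d + 2 * d

theorem Re_nonneg (hd : 3 ≤ d) (b : ℕ) : 0 ≤ Re d b := (RR_nonneg hd b).trans (le_ev2 _)

theorem Re_le (hd : 3 ≤ d) {b k : ℕ} (h : b ≤ k + 1) : Re d b ≤ Pe d k := ev2_mono (RR_le hd h)

theorem step_one' (hd : 3 ≤ d) {b u k M : ℕ} (hb : b + u = d) (hu : 1 ≤ u) (hk : k ≤ d)
    (h1 : u * k ≤ 2 * M) (h2 : k ≤ M) : Pe d k ≤ Re d b + 2 * b + 2 * ((M : ℤ) - k) := by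
  have h := step_one hd hb hu hk h1 h2
  have h3 := le_ev2 (RR d b)
  have h4 : PP d k ≤ 2 * ((RR d b + 1) / 2 + b + ((M : ℤ) - k)) := by
    unfold ev2 at h3
    linarith
  have h5 := ev2_le h4
  unfold Pe Re
  unfold ev2 at h5 ⊢
  linarith

theorem step_two' (hd : 3 ≤ d) {k M : ℕ} (h1 : d * k ≤ 2 * M) (h2 : k ≤ M) :
    Ce d + Re d k ≤ Re d d + 2 * d + 2 * ((M : ℤ) - k) := by
  have h := step_two hd h1 h2
  have hR2 : RR d d = ((d : ℤ) - 3) * (d - 1) + 2 := by
    unfold RR
    rw [if_neg (by omega), PP_big' hd (by omega) (le_refl _)]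
    push_cast [Nat.cast_sub (show 1 ≤ d by omega)]
    ring
  have hC : CC d = RR d d + 2 * d := by
    rw [hR2]
    unfold CC
    ring
  have h3 : RR d k ≤ 2 * ((M : ℤ) - k) := by linarith
  have h4 := ev2_le h3
  unfold Ce Re
  linarith

theorem choose_next' (hd : 3 ≤ d) (H : Finset (Fin d → ℕ)) (T m : ℤ) :
    ∀ (q : ℕ) (x : Fin d → ℕ), rk x + q = n →
    Ce d * (rk x - m) + Re d (N1 H x) ≤ 2 * T - 2 * Ab H x →
    (∃ z, x < z ∧ rk z ≤ n ∧ z ∉ H ∧
      Ce d * (rk z - (m + 1)) + Pe d (N1 H z) ≤ 2 * T - 2 * Ab H z) ∨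
    Ce d * (n - m) ≤ 2 * T := by
  intro q
  induction q with
  | zero =>
    intro x hx hE
    right
    have h1 : (rk x : ℤ) = n := by
      have : rk x = n := by omega
      exact_mod_cast this
    rw [h1] at hE
    have h2 := Re_nonneg hd (N1 H x)
    have h3 : (0 : ℤ) ≤ Ab H x := by positivity
    linarith
  | succ q ih =>
    intro x hx hE
    by_cases hU : (Finset.univ.filter (fun j : Fin d => x + e j ∉ H)).Nonempty
    · left
      obtain ⟨j, hj, hmin⟩ := Finset.exists_min_image _ (fun j => N1 H (x + e j)) hU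
      have hjH : x + e j ∉ H := by simpa using hj
      refine ⟨x + e j, lt_add_e x j, ?_, hjH, ?_⟩
      · rw [rk_add_e]
        omega
      · have hl := leave H x j
        have hdb := double H x (Finset.univ.filter (fun j : Fin d => x + e j ∉ H))
        have hcu : (Finset.univ.filter (fun j : Fin d => x + e j ∉ H)).card * N1 H (x + e j) ≤
            2 * N2 H x := by
          refine le_trans ?_ hdb
          rw [← smul_eq_mul]
          exact Finset.card_nsmul_le_sum _ _ _ hmin
        have hs := step_one' hd (filter_compl_card H x) (Finset.card_pos.2 hU)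
          (N1_le H (x + e j)) hcu (N1_le_N2 H x j)
        rw [rk_add_e]
        have hl' : (Ab H (x + e j) : ℤ) + N1 H x + N2 H x ≤ Ab H x + N1 H (x + e j) := by
          exact_mod_cast hl
        push_cast
        have h5 : ((rk x : ℤ) + 1 - (m + 1)) = rk x - m := by ring
        rw [h5]
        linarith
    · rw [Finset.not_nonempty_iff_eq_empty] at hU
      have hN : N1 H x = d := by
        have := filter_compl_card H x
        rw [hU, Finset.card_empty] at this
        omega
      have hne : (Finset.univ : Finset (Fin d)).Nonempty := ⟨⟨0, by omega⟩, Finset.mem_univ _⟩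
      obtain ⟨j, _, hmin⟩ := Finset.exists_min_image _ (fun j => N1 H (x + e j)) hne
      have hl := leave H x j
      have hdb := double H x Finset.univ
      have hcu : d * N1 H (x + e j) ≤ 2 * N2 H x := by
        refine le_trans ?_ hdb
        have := Finset.card_nsmul_le_sum _ _ _ hmin
        rwa [smul_eq_mul, Finset.card_univ, Fintype.card_fin] at this
      have hs := step_two' hd hcu (N1_le_N2 H x j)
      have hl' : (Ab H (x + e j) : ℤ) + N1 H x + N2 H x ≤ Ab H x + N1 H (x + e j) := by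
        exact_mod_cast hl
      rw [hN] at hE hl'
      have hE' : Ce d * (rk (x + e j) - m) + Re d (N1 H (x + e j)) ≤
          2 * T - 2 * Ab H (x + e j) := by
        rw [rk_add_e]
        push_cast
        have h5 : Ce d * ((rk x : ℤ) + 1 - m) = Ce d * (rk x - m) + Ce d := by ring
        rw [h5]
        linarith
      rcases ih (x + e j) (by rw [rk_add_e]; omega) hE' with ⟨z, hz1, hz2, hz3, hz4⟩ | h
      · exact Or.inl ⟨z, (lt_add_e x j).trans hz1, hz2, hz3, hz4⟩
      · exact Or.inr h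

/-- the invariant -/
def Is (m : ℕ) (x : Fin d → ℕ) (H : Finset (Fin d → ℕ)) : Prop :=
  Ce d * (rk x - m) + Pe d (N1 H x) ≤ 2 * m - 2 * Ab H x

theorem seqG_lows (hd : 3 ≤ d) {k : ℕ}
    (hk : ∀ t : ℕ, Ce d * (n + 1) ≤ (Ce d + 2) * t → k ≤ t) : SeqG (Q d n) k := by
  apply strat (I := Is)
  · unfold Is
    have h1 : ({fun _ => 0} : Finset (Fin d → ℕ)) = insert (fun _ => 0) ∅ := by simp
    have h2 : N1 (∅ : Finset (Fin d → ℕ)) (fun _ => 0) = 0 := by simp [N1]
    have h3 : Ab (∅ : Finset (Fin d → ℕ)) (fun _ => 0) = 0 := by simp [Ab]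
    have h4 : rk (fun _ => 0 : Fin d → ℕ) = 0 := by simp [rk]
    rw [h1, N1_insert_self, Ab_insert_self, h2, h3, h4]
    simp [Pe, PP_zero, ev2]
  · intro m x H p hx hI
    unfold Is at hI
    have hE : Ce d * (rk x - (m : ℤ)) + Re d (N1 (insert p H) x) ≤
        2 * ((m : ℤ) + 1) - 2 * Ab (insert p H) x := by
      have h1 := Re_le hd (N1_insert_le H x p)
      have h2 : (Ab (insert p H) x : ℤ) ≤ Ab H x + 1 := by
        exact_mod_cast Ab_insert_le H x p
      linarith
    rcases choose_next' (n := n) hd (insert p H) ((m : ℤ) + 1) m (n - rk x) x (by omega) hE with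
      ⟨z, hz1, hz2, hz3, hz4⟩ | hfin
    · left
      refine ⟨z, hz1, hz2, hz3, ?_⟩
      unfold Is
      rw [N1_insert_self, Ab_insert_self]
      push_cast
      exact hz4
    · right
      apply hk
      push_cast
      linarith

theorem gseq_lows (hd : 3 ≤ d) (n : ℕ) : Ce d * (n + 1) ≤ (Ce d + 2) * gseq (Q d n) := by
  have hC : 0 ≤ Ce d := by
    have := Re_nonneg hd d
    unfold Ce
    positivity
  obtain ⟨k, hk, hmin⟩ : ∃ k : ℕ, Ce d * (n + 1) ≤ (Ce d + 2) * k ∧
      ∀ t : ℕ, Ce d * (n + 1) ≤ (Ce d + 2) * t → k ≤ t := by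
    have hex : ∃ k : ℕ, Ce d * (n + 1) ≤ (Ce d + 2) * k := by
      refine ⟨n + 1, ?_⟩
      push_cast
      nlinarith
    exact ⟨Nat.find hex, Nat.find_spec hex, fun t ht => Nat.find_min' hex ht⟩
  have h1 : k ≤ gseq (Q d n) := le_csSup ⟨n + 1, fun k hk => setG_le (SeqG.setG hk)⟩
    (seqG_lows hd hmin)
  have h2 : (k : ℤ) ≤ gseq (Q d n) := by exact_mod_cast h1
  nlinarith

end Pool.Agent.H19.CG
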