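import Pool.Agent.H19.CG.Cnt

namespace Pool.Agent.H19.CG

/-! ### Multinomial weights -/

variable {d : ℕ}

open scoped Classical

/-- the multinomial coefficient -/
def mult (z : Fin d → ℕ) : ℕ := Nat.multinomial Finset.univ z

theorem mult_spec (z : Fin d → ℕ) : (∏ i, (z i).factorial) * mult z = (rk z).factorial :=
  Nat.multinomial_spec _ _

theorem rk_sub {z : Fin d → ℕ} {j : Fin d} (h : 1 ≤ z j) : rk (z - e j) + 1 = rk z := by
  have h1 : (z - e j) + e j = z := by
    funext i
    simp only [Pi.add_apply, Pi.sub_apply]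
    by_cases hi : i = j
    · subst hi
      simp only [e, Pi.single_eq_same]
      omega
    · simp only [e, Pi.single_eq_of_ne hi]
      omega
  conv_rhs => rw [← h1]
  rw [rk_add_e]

theorem prod_sub {z : Fin d → ℕ} {j : Fin d} (h : 1 ≤ z j) :
    z j * ∏ i, ((z - e j) i).factorial = ∏ i, (z i).factorial := by
  rw [← Finset.mul_prod_erase Finset.univ (fun i => ((z - e j) i).factorial) (Finset.mem_univ j),
    ← Finset.mul_prod_erase Finset.univ (fun i => (z i).factorial) (Finset.mem_univ j),
    ← mul_assoc]
  congr 1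
  · simp only [Pi.sub_apply, e, Pi.single_eq_same]
    exact Nat.mul_factorial_pred (by omega)
  · refine Finset.prod_congr rfl (fun i hi => ?_)
    have hi' : i ≠ j := Finset.ne_of_mem_erase hi
    simp only [Pi.sub_apply, e, Pi.single_eq_of_ne hi', Nat.sub_zero]

theorem mult_sub {z : Fin d → ℕ} {j : Fin d} (h : 1 ≤ z j) :
    mult (z - e j) * rk z = mult z * z j := by
  have h1 := mult_spec (z - e j)
  have h2 := mult_spec z
  have h3 := prod_sub h
  have h4 := rk_sub h
  have hpos : 0 < ∏ i, ((z - e j) i).factorial := Finset.prod_pos (fun i _ => Nat.factorial_pos _)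
  have h5 : (rk z).factorial = rk z * (rk (z - e j)).factorial := by
    rw [← h4]
    exact Nat.factorial_succ _
  apply Nat.eq_of_mul_eq_mul_left hpos
  calc (∏ i, ((z - e j) i).factorial) * (mult (z - e j) * rk z)
      = ((∏ i, ((z - e j) i).factorial) * mult (z - e j)) * rk z := by ring
    _ = (rk z).factorial := by rw [h1, h5]; ring
    _ = (∏ i, (z i).factorial) * mult z := h2.symm
    _ = (z j * ∏ i, ((z - e j) i).factorial) * mult z := by rw [h3]
    _ = _ := by ring

theorem sum_mult {z : Fin d → ℕ} (hz : 1 ≤ rk z) (U : Finset (Fin d)) :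
    ∑ j ∈ U.filter (fun j => 1 ≤ z j), mult (z - e j) ≤ mult z := by
  have h1 : rk z * ∑ j ∈ U.filter (fun j => 1 ≤ z j), mult (z - e j) ≤ rk z * mult z := by
    rw [Finset.mul_sum]
    calc ∑ j ∈ U.filter (fun j => 1 ≤ z j), rk z * mult (z - e j)
        = ∑ j ∈ U.filter (fun j => 1 ≤ z j), mult z * z j := by
          refine Finset.sum_congr rfl (fun j hj => ?_)
          rw [mul_comm, mult_sub (Finset.mem_filter.1 hj).2]
      _ ≤ ∑ j, mult z * z j := Finset.sum_le_sum_of_subset (Finset.subset_univ _)
      _ = mult z * rk z := by rw [← Finset.mul_sum]; rfl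
      _ = rk z * mult z := mul_comm _ _
  exact Nat.le_of_mul_le_mul_left h1 (by omega)

/-- factorials are at least the tangent geometric sequence -/
theorem fac_tangent (k z : ℕ) : k.factorial * (k + 1) ^ z ≤ z.factorial * (k + 1) ^ k := by
  rcases Nat.le_total k z with h | h
  · obtain ⟨m, rfl⟩ := Nat.exists_eq_add_of_le h
    have h1 : k.factorial * (k + 1) ^ m ≤ (k + m).factorial := Nat.factorial_mul_pow_le_factorial
    calc k.factorial * (k + 1) ^ (k + m) = (k.factorial * (k + 1) ^ m) * (k + 1) ^ k := by
          rw [pow_add]; ring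
      _ ≤ _ := Nat.mul_le_mul_right _ h1
  · obtain ⟨m, rfl⟩ := Nat.exists_eq_add_of_le h
    have h1 : (z + m).factorial ≤ z.factorial * (z + m + 1) ^ m := by
      have h2 : (z + m).factorial = z.factorial * (z + 1).ascFactorial m :=
        (Nat.factorial_mul_ascFactorial z m).symm
      rw [h2]
      refine Nat.mul_le_mul_left _ ?_
      clear h2 h
      induction m with
      | zero => simp
      | succ m ih =>
        rw [Nat.ascFactorial_succ, pow_succ, mul_comm]
        refine Nat.mul_le_mul (ih.trans (Nat.pow_le_pow_left (by omega) m)) (by omega)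
    calc (z + m).factorial * (z + m + 1) ^ z ≤ (z.factorial * (z + m + 1) ^ m) * (z + m + 1) ^ z :=
          Nat.mul_le_mul_right _ h1
      _ = _ := by rw [pow_add]; ring

/-- the upper bound for multinomial coefficients -/
theorem mult_le (k : ℕ) (z : Fin d → ℕ) :
    mult z * (k.factorial ^ d * (k + 1) ^ rk z) ≤ (rk z).factorial * (k + 1) ^ (k * d) := by
  have h1 : k.factorial ^ d * (k + 1) ^ rk z ≤ (∏ i, (z i).factorial) * (k + 1) ^ (k * d) := by
    calc k.factorial ^ d * (k + 1) ^ rk z = ∏ i, (k.factorial * (k + 1) ^ z i) := by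
          rw [Finset.prod_mul_distrib, Finset.prod_pow_eq_pow_sum, Finset.prod_const,
            Finset.card_univ, Fintype.card_fin]
          rfl
      _ ≤ ∏ i, ((z i).factorial * (k + 1) ^ k) :=
          Finset.prod_le_prod' (fun i _ => fac_tangent k (z i))
      _ = _ := by
          rw [Finset.prod_mul_distrib, Finset.prod_const, Finset.card_univ, Fintype.card_fin,
            ← pow_mul]
  calc mult z * (k.factorial ^ d * (k + 1) ^ rk z)
      ≤ mult z * ((∏ i, (z i).factorial) * (k + 1) ^ (k * d)) := Nat.mul_le_mul_left _ h1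
    _ = ((∏ i, (z i).factorial) * mult z) * (k + 1) ^ (k * d) := by ring
    _ = _ := by rw [mult_spec]

end Pool.Agent.H19.CG
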