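import Pool.Agent.H19.CG.Sfe

namespace Pool.Agent.H19.CG

/-! ### Maker's strategy for n at most 6 -/

variable {d n : ℕ}

/-- The score of Maker in the set game is at least k. -/
def SetScore {P : Type} [PartialOrder P] (l : List P) (k : ℕ) : Prop :=
  ∃ s : List P, (∀ x ∈ s, x ∈ mk l) ∧ s.Pairwise (· < ·) ∧ s.length = k

/-- Maker can guarantee the score k in the set game on P. -/
def SetG (P : Type) [PartialOrder P] (k : ℕ) : Prop :=
  ∃ s : List P → P, Legal s ∧ ∀ l, IsPlay l → ByMaker s l → SetScore l k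

/-- The value of the set game. -/
noncomputable def gset (P : Type) [PartialOrder P] : ℕ := sSup {k | SetG P k}

theorem SeqG.setG {P : Type} [PartialOrder P] {k : ℕ} (h : SeqG P k) : SetG P k := by
  obtain ⟨s, hs, hk⟩ := h
  refine ⟨s, hs, fun l hl hb => ?_⟩
  obtain ⟨c, hc, hp, hlen⟩ := hk l hl hb
  exact ⟨c, fun x hx => hc.subset hx, hp, hlen⟩

/-- coordinates of the embedded point -/
def ev (d a b c : ℕ) : Fin d → ℕ := fun j =>
  (if j.1 = 0 then a else 0) + (if j.1 = 1 then b else 0) + (if j.1 = 2 then c else 0)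

theorem sum_ite_val (hd : 3 ≤ d) (i a : ℕ) (hi : i < 3) :
    ∑ j : Fin d, (if j.1 = i then a else 0) = a := by
  rw [Finset.sum_eq_single (⟨i, by omega⟩ : Fin d)]
  · simp
  · intro j _ hj
    rw [if_neg]
    intro h
    exact hj (Fin.ext h)
  · intro h
    exact absurd (Finset.mem_univ _) h

theorem sum_ev (hd : 3 ≤ d) (a b c : ℕ) : ∑ j, ev d a b c j = a + b + c := by
  unfold ev
  rw [Finset.sum_add_distrib, Finset.sum_add_distrib, sum_ite_val hd 0 a (by norm_num),
    sum_ite_val hd 1 b (by norm_num), sum_ite_val hd 2 c (by norm_num)]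

/-- the embedded point is claimed -/
def Cd (h : List (Q d n)) (a b c : ℕ) : Prop := ∃ x ∈ h, x.1 = ev d a b c

/-- all claimed points above the token are recorded -/
def Cov (h : List (Q d n)) (a b c : ℕ) (T : Finset ℕ) : Prop :=
  ∀ u v w, 1 ≤ u + v + w → a + b + c + (u + v + w) ≤ n → Cd h (a + u) (b + v) (c + w) →
    u + 8 * v + 64 * w ∈ T

/-- the invariant: token of rank m -/
def Inv (m : ℕ) (h : List (Q d n)) : Prop :=
  ∃ a b c T, a + b + c = m ∧ Sf (n - m) T ∧ Cov h a b c T ∧
    ∃ (s : List (Q d n)) (x : Q d n), x.1 = ev d a b c ∧ (s ++ [x]).Sublist (mk h) ∧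
      (s ++ [x]).Pairwise (· < ·) ∧ s.length = m

theorem ev_lt {a b c a' b' c' : ℕ} (hd : 3 ≤ d) (ha : a ≤ a') (hb : b ≤ b') (hc : c ≤ c')
    (hs : a + b + c < a' + b' + c') {x y : Q d n} (hx : x.1 = ev d a b c)
    (hy : y.1 = ev d a' b' c') : x < y := by
  rw [← Subtype.coe_lt_coe, hx, hy]
  refine lt_of_le_of_ne ?_ ?_
  · intro j
    show ev d a b c j ≤ ev d a' b' c' j
    unfold ev
    split_ifs <;> omega
  · intro he
    have h1 := sum_ev hd a b c
    have h2 := sum_ev hd a' b' c'
    rw [he] at h1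
    omega

theorem ev_inj {a b c a' b' c' : ℕ} (hd : 3 ≤ d) (h : ev d a b c = ev d a' b' c') :
    a = a' ∧ b = b' ∧ c = c' := by
  have h0 := congrFun h ⟨0, by omega⟩
  have h1 := congrFun h ⟨1, by omega⟩
  have h2 := congrFun h ⟨2, by omega⟩
  simp [ev] at h0 h1 h2
  exact ⟨h0, h1, h2⟩

/-- the direction vector -/
def dv (j i : ℕ) : ℕ := if j = i then 1 else 0

theorem dv_sum {j : ℕ} (hj : j < 3) : dv j 0 + dv j 1 + dv j 2 = 1 := by
  interval_cases j <;> rfl

theorem dv_off {j : ℕ} (hj : j < 3) : dv j 0 + 8 * dv j 1 + 64 * dv j 2 = off j := by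
  interval_cases j <;> rfl

theorem code_inj {u v w u' v' w' : ℕ} (hu : u < 8) (hu' : u' < 8) (hv : v < 8) (hv' : v' < 8)
    (h : u + 8 * v + 64 * w = u' + 8 * v' + 64 * w') : u = u' ∧ v = v' ∧ w = w' := by
  omega

/-- all codes of the claims above the token after one more claim -/
theorem cov_snoc {h : List (Q d n)} {a b c : ℕ} {T : Finset ℕ} (hd : 3 ≤ d) (hn : n ≤ 6)
    (hc : Cov h a b c T) (p : Q d n) :
    ∃ E : Finset ℕ, (E = T ∨ ∃ q ∈ pss (n - (a + b + c)), E = insert q T) ∧
      Cov (h ++ [p]) a b c E := by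
  classical
  by_cases hp : ∃ u v w, 1 ≤ u + v + w ∧ a + b + c + (u + v + w) ≤ n ∧
      p.1 = ev d (a + u) (b + v) (c + w)
  · obtain ⟨u, v, w, h1, h2, h3⟩ := hp
    refine ⟨insert (u + 8 * v + 64 * w) T, Or.inr ⟨_, pos_mem _ (by omega) u v w h1 (by omega), rfl⟩,
      ?_⟩
    intro u' v' w' h1' h2' ⟨x, hx, hxe⟩
    rcases List.mem_append.1 hx with hx | hx
    · exact Finset.mem_insert_of_mem (hc u' v' w' h1' h2' ⟨x, hx, hxe⟩)
    · simp only [List.mem_cons, List.not_mem_nil, or_false] at hx
      subst hx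
      rw [h3] at hxe
      obtain ⟨e1, e2, e3⟩ := ev_inj hd hxe
      have e1 : u = u' := by omega
      have e2 : v = v' := by omega
      have e3 : w = w' := by omega
      subst e1 e2 e3
      exact Finset.mem_insert_self _ _
  · refine ⟨T, Or.inl rfl, ?_⟩
    intro u' v' w' h1' h2' ⟨x, hx, hxe⟩
    rcases List.mem_append.1 hx with hx | hx
    · exact hc u' v' w' h1' h2' ⟨x, hx, hxe⟩
    · simp only [List.mem_cons, List.not_mem_nil, or_false] at hx
      subst hx
      exact absurd ⟨u', v', w', h1', h2', hxe⟩ hp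

theorem mk_prefix {P : Type} : ∀ (h t : List P), mk h <+: mk (h ++ t)
  | [], t => List.nil_prefix
  | [a], t => by
    cases t with
    | nil => exact List.prefix_refl _
    | cons b t => exact ⟨mk t, rfl⟩
  | a :: b :: l, t => by
    simp only [List.cons_append, mk]
    exact List.prefix_cons_inj a |>.2 (mk_prefix l t)

theorem mk_snoc_even {P : Type} (h : List P) (hl : h.length % 2 = 0) (x : P) :
    mk (h ++ [x]) = mk h ++ [x] := by
  rw [mk_append h [x] hl]
  rfl

theorem inv_step (hd : 3 ≤ d) (hn : n ≤ 6) {m : ℕ} (hm : m < n) {h : List (Q d n)}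
    (hi : Inv m h) (hl : h.length = 2 * m + 1) (p : Q d n) :
    ∃ x, x ∉ h ++ [p] ∧ Inv (m + 1) (h ++ [p] ++ [x]) := by
  classical
  obtain ⟨a, b, c, T, habc, hT, hc, s, x, hx, hs, hsp, hsl⟩ := hi
  subst habc
  obtain ⟨E, hE, hcE⟩ := cov_snoc hd hn hc p
  have hM : n - (a + b + c) = (n - (a + b + c + 1)) + 1 := by omega
  rw [hM] at hT hE
  obtain ⟨j, hj, hoff, hT'⟩ := sf_step (by omega) hT hE
  have hdv := dv_sum hj
  have hdo := dv_off hj
  have hsum : ∑ i, ev d (a + dv j 0) (b + dv j 1) (c + dv j 2) i ≤ n := by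
    rw [sum_ev hd]
    omega
  refine ⟨⟨ev d (a + dv j 0) (b + dv j 1) (c + dv j 2), hsum⟩, ?_, ?_⟩
  · intro hmem
    apply hoff
    rw [← hdo]
    exact hcE (dv j 0) (dv j 1) (dv j 2) (by omega) (by omega) ⟨_, hmem, rfl⟩
  · refine ⟨a + dv j 0, b + dv j 1, c + dv j 2, shF j (n - (a + b + c + 1)) E, by omega, hT', ?_, ?_⟩
    · intro u v w h1 h2 ⟨y, hy, hye⟩
      simp only [shF, Finset.mem_filter, List.mem_toFinset]
      refine ⟨pos_mem _ (by omega) u v w h1 (by omega), ?_⟩
      have h3 : Cd (h ++ [p]) (a + (dv j 0 + u)) (b + (dv j 1 + v)) (c + (dv j 2 + w)) := by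
        rcases List.mem_append.1 hy with hy | hy
        · refine ⟨y, hy, ?_⟩
          rw [hye]
          congr 1 <;> omega
        · simp only [List.mem_cons, List.not_mem_nil, or_false] at hy
          subst hy
          obtain ⟨e1, e2, e3⟩ := ev_inj hd hye
          omega
      have h4 := hcE _ _ _ (by omega) (by omega) h3
      have e : u + 8 * v + 64 * w + off j =
          dv j 0 + u + 8 * (dv j 1 + v) + 64 * (dv j 2 + w) := by omega
      rw [e]
      exact h4
    · refine ⟨s ++ [x], ⟨ev d (a + dv j 0) (b + dv j 1) (c + dv j 2), hsum⟩, rfl, ?_, ?_,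
        by simp [hsl]⟩
      · rw [mk_snoc_even]
        · exact List.Sublist.append (hs.trans (mk_prefix h [p]).sublist) (List.Sublist.refl _)
        · simp only [List.length_append, List.length_cons, List.length_nil]
          omega
      · rw [List.pairwise_append]
        refine ⟨hsp, by simp, ?_⟩
        intro y hy z hz
        simp only [List.mem_cons, List.not_mem_nil, or_false] at hz
        subst hz
        have hxz : x < (⟨ev d (a + dv j 0) (b + dv j 1) (c + dv j 2), hsum⟩ : Q d n) :=
          ev_lt hd (Nat.le_add_right _ _) (Nat.le_add_right _ _) (Nat.le_add_right _ _)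
            (by omega) hx rfl
        rcases List.mem_append.1 hy with hy | hy
        · have h1 := (List.pairwise_append.1 hsp).2.2 y hy x (by simp)
          exact h1.trans hxz
        · simp only [List.mem_cons, List.not_mem_nil, or_false] at hy
          subst hy
          exact hxz

theorem inv_zero (hd : 3 ≤ d) (hn : n ≤ 6) : ∃ x : Q d n, Inv 0 [x] := by
  have hsum : ∑ i, ev d 0 0 0 i ≤ n := by
    rw [sum_ev hd]
    omega
  refine ⟨⟨ev d 0 0 0, hsum⟩, 0, 0, 0, ∅, rfl, sf_empty _ (by omega), ?_, ?_⟩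
  · intro u v w h1 h2 ⟨y, hy, hye⟩
    simp only [List.mem_cons, List.not_mem_nil, or_false] at hy
    subst hy
    obtain ⟨e1, e2, e3⟩ := ev_inj hd hye
    omega
  · exact ⟨[], ⟨ev d 0 0 0, hsum⟩, rfl, by simp [mk], by simp, rfl⟩

theorem seqG_full (hd : 3 ≤ d) (hn : n ≤ 6) : SeqG (Q d n) (n + 1) := by
  classical
  have hex : ∀ h : List (Q d n), ∃ x : Q d n, ((∃ y, y ∉ h) → x ∉ h) ∧
      ((∃ m, h.length = 2 * m ∧ ∃ y, y ∉ h ∧ Inv m (h ++ [y])) →
        ∃ m, h.length = 2 * m ∧ Inv m (h ++ [x])) := by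
    intro h
    by_cases h1 : ∃ m, h.length = 2 * m ∧ ∃ y, y ∉ h ∧ Inv m (h ++ [y])
    · obtain ⟨m, hm, y, hy, hI⟩ := h1
      exact ⟨y, fun _ => hy, fun _ => ⟨m, hm, hI⟩⟩
    · by_cases h2 : ∃ y, y ∉ h
      · obtain ⟨y, hy⟩ := h2
        exact ⟨y, fun _ => hy, fun hh => absurd hh h1⟩
      · exact ⟨⟨fun _ => 0, by simp⟩, fun hh => absurd hh h2, fun hh => absurd hh h1⟩
  choose s hs1 hs2 using hex
  refine ⟨s, hs1, ?_⟩
  intro l hl hb
  have key : ∀ m ≤ n, 2 * m + 1 ≤ l.length ∧ Inv m (l.take (2 * m + 1)) := by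
    intro m
    induction m with
    | zero =>
      intro _
      obtain ⟨x0, hx0⟩ := inv_zero hd hn
      have hl0 : 1 ≤ l.length := List.length_pos_of_mem (hl.2 x0)
      refine ⟨by omega, ?_⟩
      obtain ⟨m, hm, hI⟩ := hs2 [] ⟨0, rfl, x0, by simp, by simpa using hx0⟩
      have hm0 : m = 0 := by
        simp only [List.length_nil] at hm
        omega
      subst hm0
      have h1 : l[0]? = some l[0] := List.getElem?_eq_getElem hl0
      have h2 := hb 0 _ rfl h1
      have h3 : l.take (2 * 0 + 1) = [] ++ [s []] := by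
        have h4 : l.take 1 = [l[0]] := by
          rw [List.take_one]
          cases l with
          | nil => simp at hl0
          | cons a t => simp
        rw [show 2 * 0 + 1 = 1 from rfl, h4, h2]
        simp
      rw [h3]
      exact hI
    | succ m ih =>
      intro hm
      obtain ⟨h1, h2⟩ := ih (by omega)
      have hlen : (l.take (2 * m + 1)).length = 2 * m + 1 := by
        rw [List.length_take]
        omega
      -- the play goes on
      have h3 : 2 * m + 1 < l.length := by
        by_contra hc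
        have he : l.take (2 * m + 1) = l := List.take_of_length_le (by omega)
        obtain ⟨x0, _⟩ := inv_zero hd hn
        obtain ⟨x, hx, _⟩ := inv_step hd hn (by omega) h2 hlen x0
        apply hx
        rw [he]
        exact List.mem_append_left _ (hl.2 x)
      obtain ⟨x, hx, hI⟩ := inv_step hd hn (by omega) h2 hlen l[2 * m + 1]
      have ht : l.take (2 * m + 1) ++ [l[2 * m + 1]] = l.take (2 * m + 2) :=
        List.take_append_getElem h3
      rw [ht] at hx hI
      have h4 : 2 * m + 2 < l.length := by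
        by_contra hc
        have he : l.take (2 * m + 2) = l := List.take_of_length_le (by omega)
        apply hx
        rw [he]
        exact hl.2 x
      have hlen2 : (l.take (2 * m + 2)).length = 2 * (m + 1) := by
        rw [List.length_take]
        omega
      obtain ⟨m', hm', hI'⟩ := hs2 (l.take (2 * m + 2)) ⟨m + 1, hlen2, x, hx, hI⟩
      have hmm : m' = m + 1 := by omega
      subst hmm
      have h5 := hb (2 * m + 2) _ (by omega) (List.getElem?_eq_getElem h4)
      have ht2 : l.take (2 * m + 2) ++ [l[2 * m + 2]] = l.take (2 * m + 3) :=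
        List.take_append_getElem h4
      rw [← h5, ht2] at hI'
      exact ⟨by omega, hI'⟩
  obtain ⟨h1, a, b, c, T, _, _, _, t, x, _, ht, htp, htl⟩ := key n le_rfl
  refine ⟨t ++ [x], ?_, htp, by simp [htl]⟩
  refine ht.trans ?_
  have := (mk_prefix (l.take (2 * n + 1)) (l.drop (2 * n + 1))).sublist
  rwa [List.take_append_drop] at this

/-! ### The values -/

theorem exists_play {P : Type} [Finite P] {s : List P → P} (hs : Legal s) :
    ∀ (m : ℕ) (h : List P), h.Nodup → ByMaker s h → Nat.card P ≤ h.length + m →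
      ∃ l, IsPlay l ∧ ByMaker s l := by
  classical
  intro m
  induction m with
  | zero =>
    intro h hnd hb hm
    have : Fintype P := Fintype.ofFinite _
    refine ⟨h, ⟨hnd, fun x => ?_⟩, hb⟩
    by_contra hx
    have h1 : (x :: h).Nodup := List.nodup_cons.2 ⟨hx, hnd⟩
    have h2 := h1.length_le_card
    rw [Nat.card_eq_fintype_card] at hm
    simp only [List.length_cons] at h2
    omega
  | succ m ih =>
    intro h hnd hb hm
    by_cases hall : ∀ x, x ∈ h
    · exact ⟨h, ⟨hnd, hall⟩, hb⟩
    · push Not at hall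
      obtain ⟨x0, hx0⟩ := hall
      have hz : s h ∉ h := hs h ⟨x0, hx0⟩
      obtain ⟨x, hx, hbx⟩ : ∃ x, x ∉ h ∧ ByMaker s (h ++ [x]) := by
        refine ⟨s h, hz, ?_⟩
        intro i y hi hy
        by_cases hc : i < h.length
        · rw [List.getElem?_append_left hc] at hy
          rw [List.take_append_of_le_length hc.le]
          exact hb i y hi hy
        · rw [List.getElem?_append_right (by omega)] at hy
          have he : i = h.length := by
            by_contra hne
            rw [List.getElem?_eq_none (by simp only [List.length_cons, List.length_nil]; omega)]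
              at hy
            exact absurd hy (by simp)
          subst he
          simp only [Nat.sub_self, List.getElem?_cons_zero, Option.some.injEq] at hy
          rw [← hy]
          simp
      refine ih (h ++ [x]) ?_ hbx ?_
      · rw [List.nodup_append]
        refine ⟨hnd, by simp, ?_⟩
        intro a ha b hb hab
        subst hab
        simp only [List.mem_cons, List.not_mem_nil, or_false] at hb
        exact hx (hb ▸ ha)
      · simp only [List.length_append, List.length_cons, List.length_nil]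
        omega

/-- the rank bounds the length of chains -/
theorem chain_len : ∀ (s : List (Q d n)) (m : ℕ), s.Pairwise (· < ·) →
    (∀ x ∈ s, m ≤ ∑ j, x.1 j) → s.length + m ≤ n + 1 ∨ s = []
  | [], _, _, _ => Or.inr rfl
  | [x], m, _, hm => by
    left
    have h1 := hm x (by simp)
    have h2 := x.2
    simp only [List.length_cons, List.length_nil]
    omega
  | x :: y :: l, m, hp, hm => by
    left
    have h1 := hm x (by simp)
    rw [List.pairwise_cons] at hp
    have h2 : ∀ z ∈ y :: l, m + 1 ≤ ∑ j, z.1 j := by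
      intro z hz
      have h3 : x < z := hp.1 z hz
      have h4 : x.1 < z.1 := h3
      have h5 : ∑ j, x.1 j < ∑ j, z.1 j := by
        obtain ⟨h6, j, h7⟩ := Pi.lt_def.1 h4
        exact Finset.sum_lt_sum (fun i _ => h6 i) ⟨j, Finset.mem_univ _, h7⟩
      omega
    rcases chain_len (y :: l) (m + 1) hp.2 h2 with h | h
    · simp only [List.length_cons] at h ⊢
      omega
    · exact absurd h (by simp)

theorem chain_le {s : List (Q d n)} (h : s.Pairwise (· < ·)) : s.length ≤ n + 1 := by
  rcases chain_len s 0 h (fun _ _ => Nat.zero_le _) with h | h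
  · omega
  · subst h
    simp

theorem ht_eq (hd : 0 < d) : ht (Q d n) = n + 1 := by
  apply le_antisymm _ (le_ht d n hd)
  apply csSup_le'
  rintro k ⟨s, hs, rfl⟩
  exact chain_le hs

theorem setG_le {k : ℕ} (h : SetG (Q d n) k) : k ≤ n + 1 := by
  obtain ⟨s, hs, hk⟩ := h
  obtain ⟨l, hl, hb⟩ := exists_play hs (Nat.card (Q d n)) [] List.nodup_nil
    (by intro i x _ hx; simp at hx) (by simp)
  obtain ⟨c, _, hp, rfl⟩ := hk l hl hb
  exact chain_le hp

theorem values (hd : 3 ≤ d) (hn : n ≤ 6) : gseq (Q d n) = n + 1 ∧ gset (Q d n) = n + 1 := by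
  have h1 := seqG_full hd hn
  constructor
  · apply le_antisymm
    · apply csSup_le'
      intro k hk
      exact setG_le (SeqG.setG hk)
    · exact le_csSup ⟨n + 1, fun k hk => setG_le (SeqG.setG hk)⟩ h1
  · apply le_antisymm
    · apply csSup_le'
      intro k hk
      exact setG_le hk
    · exact le_csSup ⟨n + 1, fun k hk => setG_le hk⟩ h1.setG

/-- The values for small n, and the failure at d = 3. -/
theorem all : (∀ n, gseq (Q 3 n) = ht (Q 3 n) ↔ n ≤ 6) ∧
    (∀ n, 8 * gseq (Q 3 n) ≤ 7 * (n + 2)) ∧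
    (∀ d n, 3 ≤ d → n ≤ 6 → gseq (Q d n) = n + 1 ∧ gset (Q d n) = n + 1 ∧ ht (Q d n) = n + 1) := by
  refine ⟨fun n => ⟨fun h => ?_, fun h => ?_⟩, fun n => (main n).1, fun d n hd hn =>
    ⟨(values hd hn).1, (values hd hn).2, ht_eq (by omega)⟩⟩
  · by_contra hc
    have := (main n).2 (by omega)
    omega
  · rw [(values (le_refl 3) h).1, ht_eq (by norm_num)]

end Pool.Agent.H19.CG
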