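import Pool.Agent.H19.CG.Base

namespace Pool.Agent.H19.CG

/-! ### Records of the rounds -/

variable {n : ℕ}

/-- p = z + u. -/
def AtP (z : Q 3 n) (u : V3) (p : Q 3 n) : Prop :=
  p.1 0 = z.1 0 + u.1 ∧ p.1 1 = z.1 1 + u.2.1 ∧ p.1 2 = z.1 2 + u.2.2

def lv (z : Q 3 n) : ℕ := z.1 0 + z.1 1 + z.1 2

/-- One round: Maker claims z, Breaker claims b; D, t is the state attached to z. -/
structure Rc (n : ℕ) where
  z : Q 3 n
  b : Q 3 n
  D : List V3
  t : Tr

/-- claimed in one of the rounds -/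
def Cl (R : List (Rc n)) (p : Q 3 n) : Prop := ∃ r ∈ R, p = r.z ∨ p = r.b

def Ok : List (Rc n) → Prop
  | [] => True
  | r :: R => Ok R ∧ chk r.t r.D = true ∧ dep r.t ≤ 7 ∧
      (∀ u ∈ vtx r.t :: r.D, ∀ p, AtP r.z u p → Cl (r :: R) p) ∧
      (∀ r' ∈ R, r'.z < r.z → lv r.z = lv r'.z + 1 → dep r.t < dep r'.t)

theorem atP_unique {z p q : Q 3 n} {u : V3} (hp : AtP z u p) (hq : AtP z u q) : p = q := by
  apply Subtype.ext
  funext i
  obtain ⟨a, b, c⟩ := hp
  obtain ⟨a', b', c'⟩ := hq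
  fin_cases i
  · show p.1 0 = q.1 0; omega
  · show p.1 1 = q.1 1; omega
  · show p.1 2 = q.1 2; omega

theorem lv_le (z : Q 3 n) : lv z ≤ n := by
  have h := z.2
  rw [Fin.sum_univ_three] at h
  exact h

theorem lt_iff' {y z : Q 3 n} (h : y < z) :
    y.1 0 ≤ z.1 0 ∧ y.1 1 ≤ z.1 1 ∧ y.1 2 ≤ z.1 2 ∧ lv y < lv z := by
  have hle : y.1 ≤ z.1 := h.le
  have h0 : y.1 0 ≤ z.1 0 := hle 0
  have h1 : y.1 1 ≤ z.1 1 := hle 1
  have h2 : y.1 2 ≤ z.1 2 := hle 2
  refine ⟨h0, h1, h2, ?_⟩
  by_contra hc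
  have : y = z := by
    apply Subtype.ext
    funext i
    unfold lv at hc
    fin_cases i
    · show y.1 0 = z.1 0; omega
    · show y.1 1 = z.1 1; omega
    · show y.1 2 = z.1 2; omega
  exact h.ne this

theorem cover_cases {y z : Q 3 n} (h : y < z) (hl : lv z = lv y + 1) :
    AtP y (1, 0, 0) z ∨ AtP y (0, 1, 0) z ∨ AtP y (0, 0, 1) z := by
  obtain ⟨h0, h1, h2, -⟩ := lt_iff' h
  unfold lv at hl
  unfold AtP
  simp only
  omega

theorem Cl_cons {r : Rc n} {R : List (Rc n)} {p : Q 3 n} :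
    Cl (r :: R) p ↔ (p = r.z ∨ p = r.b) ∨ Cl R p := by
  unfold Cl
  simp

/-- what is known for a record inside -/
theorem ok_mem {R : List (Rc n)} (h : Ok R) : ∀ r ∈ R, chk r.t r.D = true ∧ dep r.t ≤ 7 ∧
    (∀ u ∈ vtx r.t :: r.D, ∀ p, AtP r.z u p → Cl R p) := by
  induction R with
  | nil => intro r hr; exact absurd hr (by simp)
  | cons r0 R ih =>
    obtain ⟨h1, h2, h3, h4, h5⟩ := h
    intro r hr
    rcases List.mem_cons.1 hr with rfl | hr
    · exact ⟨h2, h3, h4⟩
    · obtain ⟨a, b, c⟩ := ih h1 r hr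
      exact ⟨a, b, fun u hu p hp => Cl_cons.2 (Or.inr (c u hu p hp))⟩

theorem mem_iff (v : V3) (l : List V3) : mem v l = true ↔ v ∈ l := by
  induction l with
  | nil => simp [mem]
  | cons w l ih =>
    simp only [mem, Bool.or_eq_true, Bool.and_eq_true, Nat.beq_eq, List.mem_cons, ih]
    constructor
    · rintro (⟨h1, h2, h3⟩ | h)
      · left
        exact Prod.ext h1 (Prod.ext h2 h3)
      · exact Or.inr h
    · rintro (rfl | h)
      · exact Or.inl ⟨rfl, rfl, rfl⟩
      · exact Or.inr h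

theorem mem_s0 {u : V3} {l : List V3} (h : u ∈ s0 l) : (u.1 + 1, u.2.1, u.2.2) ∈ l := by
  induction l with
  | nil => simp [s0] at h
  | cons w l ih =>
    obtain ⟨a, b, c⟩ := w
    cases a with
    | zero => simp only [s0] at h; exact List.mem_cons_of_mem _ (ih h)
    | succ a =>
      simp only [s0, List.mem_cons] at h
      rcases h with rfl | h
      · simp
      · exact List.mem_cons_of_mem _ (ih h)

theorem mem_s1 {u : V3} {l : List V3} (h : u ∈ s1 l) : (u.1, u.2.1 + 1, u.2.2) ∈ l := by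
  induction l with
  | nil => simp [s1] at h
  | cons w l ih =>
    obtain ⟨a, b, c⟩ := w
    cases b with
    | zero => simp only [s1] at h; exact List.mem_cons_of_mem _ (ih h)
    | succ b =>
      simp only [s1, List.mem_cons] at h
      rcases h with rfl | h
      · simp
      · exact List.mem_cons_of_mem _ (ih h)

theorem mem_s2 {u : V3} {l : List V3} (h : u ∈ s2 l) : (u.1, u.2.1, u.2.2 + 1) ∈ l := by
  induction l with
  | nil => simp [s2] at h
  | cons w l ih =>
    obtain ⟨a, b, c⟩ := w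
    cases c with
    | zero => simp only [s2] at h; exact List.mem_cons_of_mem _ (ih h)
    | succ c =>
      simp only [s2, List.mem_cons] at h
      rcases h with rfl | h
      · simp
      · exact List.mem_cons_of_mem _ (ih h)

theorem dep_pos {t : Tr} {D : List V3} (h : chk t D = true) : 1 ≤ dep t := by
  cases t with
  | L => simp [chk] at h
  | N a b c x y z => simp [dep]

/-- the state for a child of a record with given parent -/
theorem child {R : List (Rc n)} (hR : Ok R) {r : Rc n} (hr : r ∈ R) {z : Q 3 n} (hz : ¬ Cl R z)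
    (hlt : r.z < z) (hl : lv z = lv r.z + 1) :
    ∃ D t, chk t D = true ∧ dep t < dep r.t ∧ ∀ u ∈ D, ∀ p, AtP z u p → Cl R p := by
  obtain ⟨hc, -, hcl⟩ := ok_mem hR r hr
  obtain ⟨rz, rb, rD, rt⟩ := r
  simp only at hc hcl hlt hl ⊢
  cases rt with
  | L => simp [chk] at hc
  | N a b c x y w =>
    simp only [chk, Bool.and_eq_true, Bool.or_eq_true, mem_iff] at hc
    simp only [vtx] at hcl
    obtain ⟨c0, c1, c2⟩ := hc
    rcases cover_cases hlt hl with h | h | h
    · rcases c0 with c0 | c0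
      · exact absurd (hcl _ c0 z h) hz
      · refine ⟨_, x, c0, by simp only [dep]; omega, ?_⟩
        intro u hu p hp
        refine hcl _ (mem_s0 hu) p ?_
        unfold AtP at hp h ⊢
        simp only at hp h ⊢
        omega
    · rcases c1 with c1 | c1
      · exact absurd (hcl _ c1 z h) hz
      · refine ⟨_, y, c1, by simp only [dep]; omega, ?_⟩
        intro u hu p hp
        refine hcl _ (mem_s1 hu) p ?_
        unfold AtP at hp h ⊢
        simp only at hp h ⊢
        omega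
    · rcases c2 with c2 | c2
      · exact absurd (hcl _ c2 z h) hz
      · refine ⟨_, w, c2, by simp only [dep]; omega, ?_⟩
        intro u hu p hp
        refine hcl _ (mem_s2 hu) p ?_
        unfold AtP at hp h ⊢
        simp only at hp h ⊢
        omega

/-- the state of a new element of Maker -/
theorem newstate {R : List (Rc n)} (hR : Ok R) {z : Q 3 n} (hz : ¬ Cl R z) :
    ∃ D t, chk t D = true ∧ dep t ≤ 7 ∧ (∀ u ∈ D, ∀ p, AtP z u p → Cl R p) ∧
      ∀ r' ∈ R, r'.z < z → lv z = lv r'.z + 1 → dep t < dep r'.t := by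
  classical
  by_cases h : ∃ m, ∃ r ∈ R, r.z < z ∧ lv z = lv r.z + 1 ∧ dep r.t = m
  · obtain ⟨r, hr, hlt, hl, hd⟩ := Nat.find_spec h
    obtain ⟨D, t, h1, h2, h3⟩ := child hR hr hz hlt hl
    have h7 := (ok_mem hR r hr).2.1
    refine ⟨D, t, h1, by omega, h3, ?_⟩
    intro r' hr' hlt' hl'
    have := Nat.find_min' h ⟨r', hr', hlt', hl', rfl⟩
    omega
  · refine ⟨[], c42, chk_c42, dep_c42.le, by simp, ?_⟩
    intro r' hr' hlt' hl'
    exact absurd ⟨_, r', hr', hlt', hl', rfl⟩ h

/-- the reply of Breaker -/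
theorem reply {R : List (Rc n)} (hR : Ok R) {z : Q 3 n} (hz : ¬ Cl R z) :
    (∃ r : Rc n, r.z = z ∧ ¬ Cl R r.b ∧ r.b ≠ z ∧ Ok (r :: R)) ∨
    ((∀ x, x = z ∨ Cl R x) ∧ ∃ r : Rc n, r.z = z ∧ r.b = z ∧ Ok (r :: R)) := by
  classical
  obtain ⟨D, t, h1, h2, h3, h4⟩ := newstate hR hz
  by_cases hv : ∃ p, AtP z (vtx t) p ∧ ¬ Cl R p ∧ p ≠ z
  · obtain ⟨p, hp, hpc, hpz⟩ := hv
    left
    refine ⟨⟨z, p, D, t⟩, rfl, hpc, hpz, hR, h1, h2, ?_, h4⟩
    intro u hu q hq
    rcases List.mem_cons.1 hu with rfl | hu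
    · exact Cl_cons.2 (Or.inl (Or.inr (atP_unique hq hp)))
    · exact Cl_cons.2 (Or.inr (h3 u hu q hq))
  · push Not at hv
    by_cases hx : ∃ p, ¬ Cl R p ∧ p ≠ z
    · obtain ⟨p, hpc, hpz⟩ := hx
      left
      refine ⟨⟨z, p, D, t⟩, rfl, hpc, hpz, hR, h1, h2, ?_, h4⟩
      intro u hu q hq
      rcases List.mem_cons.1 hu with rfl | hu
      · by_cases hc : Cl R q
        · exact Cl_cons.2 (Or.inr hc)
        · exact Cl_cons.2 (Or.inl (Or.inl (hv q hq hc)))
      · exact Cl_cons.2 (Or.inr (h3 u hu q hq))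
    · push Not at hx
      right
      refine ⟨fun x => ?_, ⟨z, z, D, t⟩, rfl, rfl, hR, h1, h2, ?_, h4⟩
      · by_cases hc : Cl R x
        · exact Or.inr hc
        · exact Or.inl (hx x hc)
      · intro u hu q hq
        by_cases hc : Cl R q
        · exact Cl_cons.2 (Or.inr hc)
        · exact Cl_cons.2 (Or.inl (Or.inl (hx q hc)))

/-- the bound for chains -/
theorem chain_bound {R : List (Rc n)} (hR : Ok R) : ∀ s : List (Rc n), s.Sublist R →
    s.Pairwise (fun a b => b.z < a.z) → ∀ r s', s = r :: s' →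
    8 * s.length + dep r.t ≤ 7 * (lv r.z + 1) + 8 := by
  induction R with
  | nil =>
    intro s hs _ r s' he
    rw [List.sublist_nil] at hs
    rw [hs] at he
    exact absurd he (by simp)
  | cons r0 R ih =>
    obtain ⟨k1, k2, k3, k4, k5⟩ := hR
    intro s hs hp r s' he
    subst he
    rcases List.sublist_cons_iff.1 hs with hs | ⟨q, hq, hs⟩
    · exact ih k1 _ hs hp r s' rfl
    · obtain ⟨rfl, rfl⟩ := List.cons.inj hq
      cases s' with
      | nil =>
        simp only [List.length_cons, List.length_nil]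
        omega
      | cons r1 s2 =>
        have hp' := List.pairwise_cons.1 hp
        have hlt : r1.z < r.z := hp'.1 r1 (by simp)
        have hr1 : r1 ∈ R := hs.subset (by simp)
        have e := ih k1 _ hs hp'.2 r1 s2 rfl
        have hpos := dep_pos (ok_mem k1 r1 hr1).1
        have hl := (lt_iff' hlt).2.2.2
        simp only [List.length_cons] at e ⊢
        by_cases hc : lv r.z = lv r1.z + 1
        · have := k5 r1 hr1 hlt hc
          omega
        · omega

end Pool.Agent.H19.CG
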