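import Pool.Agent.H19.CG.Ck

namespace Pool.Agent.H19.CG

/-! ### Reading the certificate -/

def Bs : ℕ → List ℕ
  | 1 => b1
  | 2 => b2
  | 3 => b3
  | 4 => b4
  | _ => []

def pss : ℕ → List ℕ
  | 1 => p1
  | 2 => p2
  | 3 => p3
  | 4 => p4
  | 5 => p5
  | 6 => p6
  | _ => []

def off : ℕ → ℕ
  | 0 => 1
  | 1 => 8
  | _ => 64

theorem ckM (M : ℕ) (h : M < 6) :
    allSub (ff (Bs (M + 1)) (Bs M) (pss (M + 1))) (pss (M + 1)) (6 - M) 0 = true := by
  interval_cases M
  · exact ck1
  · exact ck2
  · exact ck3
  · exact ck4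
  · exact ck5
  · exact ck6

def fo (s : List ℕ) (m : ℕ) : ℕ := s.foldl (fun m p => Nat.lor m (2 ^ p)) m

theorem allSub_spec (f : ℕ → Bool) : ∀ (ps : List ℕ) (k m : ℕ), allSub f ps k m = true →
    ∀ s, s.Sublist ps → s.length ≤ k → f (fo s m) = true
  | [], k, m, h, s, hs, _ => by
    rw [List.sublist_nil] at hs
    subst hs
    simpa [fo, allSub] using h
  | p :: ps, 0, m, h, s, _, hk => by
    have : s = [] := List.length_eq_zero_iff.1 (Nat.le_zero.1 hk)
    subst this
    simpa [fo, allSub] using h
  | p :: ps, k + 1, m, h, s, hs, hk => by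
    simp only [allSub, Bool.and_eq_true] at h
    rcases List.sublist_cons_iff.1 hs with hs' | ⟨r, hr, hs'⟩
    · exact allSub_spec f ps (k + 1) m h.1 s hs' hk
    · subst hr
      have h3 : r.length ≤ k := by
        simp only [List.length_cons] at hk
        omega
      have h4 := allSub_spec f ps k (Nat.lor m (2 ^ p)) h.2 r hs' h3
      exact h4

theorem testBit_fo : ∀ (s : List ℕ) (m i : ℕ),
    (fo s m).testBit i = (m.testBit i || decide (i ∈ s))
  | [], m, i => by simp [fo]
  | p :: s, m, i => by
    have h := testBit_fo s (Nat.lor m (2 ^ p)) i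
    have e : fo (p :: s) m = fo s (Nat.lor m (2 ^ p)) := rfl
    rw [e, h]
    have h2 : (Nat.lor m (2 ^ p)).testBit i = (m.testBit i || decide (p = i)) := by
      have : (Nat.lor m (2 ^ p)) = m ||| 2 ^ p := rfl
      rw [this, Nat.testBit_or, Nat.testBit_two_pow]
    rw [h2]
    by_cases hp : p = i
    · subst hp
      simp
    · have hp' : i ≠ p := fun h => hp h.symm
      simp [hp, hp']

noncomputable def msk (T : Finset ℕ) : ℕ := fo T.toList 0

theorem testBit_msk (T : Finset ℕ) (i : ℕ) : (msk T).testBit i = decide (i ∈ T) := by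
  unfold msk
  rw [testBit_fo]
  simp

theorem msk_eq {T : Finset ℕ} {m : ℕ} (h : ∀ i, m.testBit i = decide (i ∈ T)) : m = msk T := by
  apply Nat.eq_of_testBit_eq
  intro i
  rw [h, testBit_msk]

theorem gd_iff (B : List ℕ) (m : ℕ) : gd B m = true ↔ ∀ b ∈ B, m &&& b ≠ b := by
  induction B with
  | nil => simp [gd]
  | cons b l ih =>
    have e : Nat.land m b = m &&& b := rfl
    by_cases h : Nat.beq (Nat.land m b) b = true
    · have h' := Nat.eq_of_beq_eq_true h
      rw [e] at h'
      simp only [gd, h, List.forall_mem_cons]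
      simp [h']
    · have h1 : Nat.beq (Nat.land m b) b = false := Bool.eq_false_iff.2 h
      have h' : m &&& b ≠ b := by
        intro hc
        rw [← e] at hc
        exact h (by rw [hc]; exact Nat.beq_refl b)
      simp only [gd, h1, List.forall_mem_cons, ih]
      exact ⟨fun hh => ⟨h', hh⟩, fun hh => hh.2⟩

theorem gd_mono {B : List ℕ} {m m' : ℕ} (hm : ∀ i, m'.testBit i = true → m.testBit i = true)
    (h : gd B m = true) : gd B m' = true := by
  rw [gd_iff] at h ⊢
  intro b hb hc
  refine h b hb ?_
  apply Nat.eq_of_testBit_eq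
  intro i
  rw [Nat.testBit_and]
  by_cases hi : b.testBit i = true
  · have h1 : (m' &&& b).testBit i = true := by rw [hc]; exact hi
    rw [Nat.testBit_and, Bool.and_eq_true] at h1
    rw [hm i h1.1, hi]
    rfl
  · have : b.testBit i = false := by simpa using hi
    rw [this]
    simp

structure Sf (M : ℕ) (T : Finset ℕ) : Prop where
  sub : ∀ p ∈ T, p ∈ pss M
  card : T.card ≤ 6 - M
  good : gd (Bs M) (msk T) = true

/-- the set of the stones seen from the neighbour -/
def shF (j M : ℕ) (E : Finset ℕ) : Finset ℕ := (pss M).toFinset.filter (fun q => q + off j ∈ E)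

theorem nodup_pss (M : ℕ) (h : M ≤ 6) : (pss M).Nodup := by
  interval_cases M <;> decide +kernel

theorem ff_of {M : ℕ} (hM : M < 6) {E : Finset ℕ} (hE : ∀ p ∈ E, p ∈ pss (M + 1))
    (hc : E.card ≤ 6 - M) : ff (Bs (M + 1)) (Bs M) (pss (M + 1)) (msk E) = true := by
  classical
  have h := allSub_spec _ _ _ _ (ckM M hM) ((pss (M + 1)).filter (fun p => decide (p ∈ E)))
    List.filter_sublist ?_
  · have e : fo ((pss (M + 1)).filter (fun p => decide (p ∈ E))) 0 = msk E := by
      apply msk_eq
      intro i
      rw [testBit_fo]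
      simp only [Nat.zero_testBit, Bool.false_or, List.mem_filter, decide_eq_true_eq]
      by_cases hi : i ∈ E
      · simp [hi, hE i hi]
      · simp [hi]
    rw [e] at h
    exact h
  · have hnd : ((pss (M + 1)).filter (fun p => decide (p ∈ E))).Nodup :=
      (nodup_pss (M + 1) (by omega)).filter _
    rw [← List.toFinset_card_of_nodup hnd]
    refine le_trans (Finset.card_le_card ?_) hc
    intro x hx
    simp only [List.mem_toFinset, List.mem_filter, decide_eq_true_eq] at hx
    exact hx.2

theorem rem_spec {B : List ℕ} {m : ℕ} : ∀ {l : List ℕ}, rem B m l = true → ∀ p ∈ l,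
    m &&& 2 ^ p = 0 ∨ gd B (m ^^^ 2 ^ p) = false
  | [], _, p, hp => absurd hp (by simp)
  | q :: l, h, p, hp => by
    simp only [rem, Bool.and_eq_true, Bool.or_eq_true] at h
    rcases List.mem_cons.1 hp with rfl | hp
    · rcases h.1 with h1 | h1
      · exact Or.inl (Nat.eq_of_beq_eq_true h1)
      · exact Or.inr (by simpa using h1)
    · exact rem_spec h.2 p hp

theorem bitfact (M : ℕ) (h : M < 6) : ∀ q ∈ pss M, mX.testBit (1 + q) = true ∧
    mY.testBit (8 + q) = true := by
  interval_cases M <;> decide +kernel

theorem land_zero_bit {m p : ℕ} (h : m &&& 2 ^ p = 0) : m.testBit p = false := by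
  have h1 : (m &&& 2 ^ p).testBit p = false := by rw [h]; simp
  rw [Nat.testBit_and, Nat.testBit_two_pow_self, Bool.and_true] at h1
  exact h1

theorem tok_of {M : ℕ} {T E : Finset ℕ} (hM : M < 6) (hT : Sf (M + 1) T)
    (hE : E = T ∨ ∃ p ∈ pss (M + 1), E = insert p T) : tok (Bs M) (msk E) = true := by
  have hcard : E.card ≤ 6 - M := by
    have h1 := hT.card
    rcases hE with rfl | ⟨p, -, rfl⟩
    · omega
    · have := Finset.card_insert_le p T
      omega
  have hsub : ∀ p ∈ E, p ∈ pss (M + 1) := by
    rcases hE with rfl | ⟨q, hq, rfl⟩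
    · exact hT.sub
    · intro p hp
      rcases Finset.mem_insert.1 hp with rfl | hp
      · exact hq
      · exact hT.sub p hp
  have h := ff_of hM hsub hcard
  simp only [ff, Bool.or_eq_true, Bool.and_eq_true] at h
  rcases h with h | ⟨h1, h2⟩
  · exact h
  · exfalso
    have h1' : gd (Bs (M + 1)) (msk E) = false := by simpa using h1
    have hTE : E = T → False := by
      intro he
      rw [he, hT.good] at h1'
      exact absurd h1' (by simp)
    rcases hE with he | ⟨p, hp, he⟩
    · exact hTE he
    · by_cases hpT : p ∈ T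
      · exact hTE (by rw [he, Finset.insert_eq_of_mem hpT])
      · rcases rem_spec h2 p hp with h3 | h3
        · have := land_zero_bit h3
          rw [testBit_msk, he] at this
          simp at this
        · have e : msk E ^^^ 2 ^ p = msk T := by
            apply msk_eq
            intro i
            rw [Nat.testBit_xor, testBit_msk, Nat.testBit_two_pow, he]
            by_cases hi : i = p
            · subst hi
              simp [hpT]
            · have hi' : p ≠ i := fun h => hi h.symm
              simp [hi, hi']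
          rw [e, hT.good] at h3
          exact absurd h3 (by simp)

theorem sf_step {M : ℕ} {T E : Finset ℕ} (hM : M < 6) (hT : Sf (M + 1) T)
    (hE : E = T ∨ ∃ p ∈ pss (M + 1), E = insert p T) :
    ∃ j < 3, off j ∉ E ∧ Sf M (shF j M E) := by
  have hcard : E.card ≤ 6 - M := by
    have h1 := hT.card
    rcases hE with rfl | ⟨p, -, rfl⟩
    · omega
    · have := Finset.card_insert_le p T
      omega
  have key : ∀ j, (∀ q ∈ pss M, q + off j ∈ E → (sh j (msk E)).testBit q = true) →
      gd (Bs M) (sh j (msk E)) = true → Sf M (shF j M E) := by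
    intro j hj hg
    refine ⟨?_, ?_, ?_⟩
    · intro p hp
      simp only [shF, Finset.mem_filter, List.mem_toFinset] at hp
      exact hp.1
    · refine le_trans ?_ hcard
      refine Finset.card_le_card_of_injOn (fun q => q + off j) ?_ ?_
      · intro q hq
        have hq' : q ∈ shF j M E := hq
        simp only [shF, Finset.mem_filter] at hq'
        exact hq'.2
      · intro a _ b _ hab
        exact Nat.add_right_cancel hab
    · refine gd_mono ?_ hg
      intro q hq
      rw [testBit_msk, decide_eq_true_eq] at hq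
      simp only [shF, Finset.mem_filter, List.mem_toFinset] at hq
      exact hj q hq.1 hq.2
  have ht := tok_of hM hT hE
  simp only [tok, Bool.or_eq_true, Bool.and_eq_true] at ht
  rcases ht with ⟨h1, h2⟩ | ⟨h1, h2⟩ | ⟨h1, h2⟩
  · refine ⟨0, by norm_num, ?_, key 0 ?_ h2⟩
    · have h3 : msk E &&& 2 ^ 1 = 0 := Nat.eq_of_beq_eq_true h1
      have := land_zero_bit h3
      rw [testBit_msk] at this
      simpa [off] using this
    · intro q hq hqe
      have e : sh 0 (msk E) = (msk E &&& mX) >>> 1 := rfl
      rw [e, Nat.testBit_shiftRight, Nat.testBit_and, testBit_msk, (bitfact M hM q hq).1]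
      have : 1 + q ∈ E := by
        have := hqe
        simp only [off] at this
        rwa [Nat.add_comm] at this
      simp [this]
  · refine ⟨1, by norm_num, ?_, key 1 ?_ h2⟩
    · have h3 : msk E &&& 2 ^ 8 = 0 := Nat.eq_of_beq_eq_true h1
      have := land_zero_bit h3
      rw [testBit_msk] at this
      simpa [off] using this
    · intro q hq hqe
      have e : sh 1 (msk E) = (msk E &&& mY) >>> 8 := rfl
      rw [e, Nat.testBit_shiftRight, Nat.testBit_and, testBit_msk, (bitfact M hM q hq).2]
      have : 8 + q ∈ E := by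
        have := hqe
        simp only [off] at this
        rwa [Nat.add_comm] at this
      simp [this]
  · refine ⟨2, by norm_num, ?_, key 2 ?_ h2⟩
    · have h3 : msk E &&& 2 ^ 64 = 0 := Nat.eq_of_beq_eq_true h1
      have := land_zero_bit h3
      rw [testBit_msk] at this
      simpa [off] using this
    · intro q hq hqe
      have e : sh 2 (msk E) = (msk E) >>> 64 := rfl
      rw [e, Nat.testBit_shiftRight, testBit_msk]
      have : 64 + q ∈ E := by
        have := hqe
        simp only [off] at this
        rwa [Nat.add_comm] at this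
      simp [this]

theorem pos_ck : ((List.range 7).all fun M => (List.range 7).all fun u => (List.range 7).all fun v =>
    (List.range 7).all fun w => !(decide (1 ≤ u + v + w)) || (!(decide (u + v + w ≤ M)) ||
      decide (u + 8 * v + 64 * w ∈ pss M))) = true := by decide +kernel

theorem pos_mem (M : ℕ) (hM : M ≤ 6) (u v w : ℕ) (h1 : 1 ≤ u + v + w) (h2 : u + v + w ≤ M) :
    u + 8 * v + 64 * w ∈ pss M := by
  have key := pos_ck
  rw [List.all_eq_true] at key
  have k1 := key M (List.mem_range.2 (by omega))
  rw [List.all_eq_true] at k1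
  have k2 := k1 u (List.mem_range.2 (by omega))
  rw [List.all_eq_true] at k2
  have k3 := k2 v (List.mem_range.2 (by omega))
  rw [List.all_eq_true] at k3
  have k4 := k3 w (List.mem_range.2 (by omega))
  simpa [h1, h2] using k4

theorem sf_empty (M : ℕ) (hM : M ≤ 6) : Sf M ∅ := by
  refine ⟨by simp, by simp, ?_⟩
  have e : msk ∅ = 0 := (msk_eq (by simp)).symm
  rw [e]
  interval_cases M <;> decide +kernel

end Pool.Agent.H19.CG
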