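import Pool.Agent.H19.CG.Exp
import Pool.Agent.H19.CG.Lows

namespace Pool.Agent.H19.CG

/-! ### The instances for 5 ≤ d ≤ 13 -/

variable {d : ℕ}

/-- the largest multinomial coefficient of order r in d variables is at most this number divided
by the next one -/
def num (d r : ℕ) : ℕ := r.factorial * (r / d + 1) ^ (r / d * d)

def den (d r : ℕ) : ℕ := (r / d).factorial ^ d * (r / d + 1) ^ r

theorem den_pos (d r : ℕ) : 0 < den d r := by
  unfold den
  positivity

theorem mult_num (z : Fin d → ℕ) : mult z * den d (rk z) ≤ num d (rk z) := mult_le (rk z / d) z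

/-- the finitely many inequalities behind a cutoff -/
def chkCut (d R K : ℕ) : Bool :=
  Nat.ble 3 d && (Nat.ble 2 R && (Nat.ble K (2 * (d - 1) ^ (R - 2)) &&
    (Nat.ble (num d R) (K * den d R) &&
      (List.range (R + 1)).all (fun r => Nat.ble r 1 ||
        Nat.ble (num d r) (2 * (d - 1) ^ (r - 2) * den d r)))))

theorem cut_of {R K : ℕ} (h : chkCut d R K = true) : Cut d R K := by
  unfold chkCut at h
  simp only [Bool.and_eq_true, Nat.ble_eq, List.all_eq_true, List.mem_range, Bool.or_eq_true] at h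
  obtain ⟨h1, h2, h3, h4, h5⟩ := h
  refine ⟨h1, h2, ?_, ?_, h3⟩
  · intro z hz
    have h6 := mult_num z
    rw [hz] at h6
    exact Nat.le_of_mul_le_mul_right (h6.trans h4) (den_pos d R)
  · intro z hz hz'
    have h6 := mult_num z
    rcases h5 (rk z) (by omega) with h7 | h7
    · omega
    · exact Nat.le_of_mul_le_mul_right (h6.trans h7) (den_pos d (rk z))

/-- the passage to an integral constant -/
def chkC (d R K c : ℕ) : Bool :=
  Nat.ble 6 d && (chkCut d R K &&
    (Nat.ble (K * (2 * d ^ 2 + 2)) ((d - 1) ^ (R - 1) * (3 * d - 2) + K * (3 * d)) &&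
      (Nat.ble 1 K && Nat.ble (c * (d ^ 2 * K)) (((d - 1) ^ (R - 1) + K) * (d - 1) * (3 * d - 2)))))

theorem gseq_top (n : ℕ) : gseq (Q d n) ≤ n + 1 := by
  apply csSup_le'
  intro k hk
  exact setG_le (SeqG.setG hk)

theorem gset_top (n : ℕ) : gset (Q d n) ≤ n + 1 := by
  apply csSup_le'
  intro k hk
  exact setG_le hk

theorem gseq_le_gset (n : ℕ) : gseq (Q d n) ≤ gset (Q d n) := by
  apply csSup_le'
  intro k hk
  exact le_csSup ⟨n + 1, fun k hk => setG_le hk⟩ (SeqG.setG hk)

theorem low_of {R K c : ℕ} (h : chkC d R K c = true) (n : ℕ) :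
    c * (n + 1) ≤ (c + 1) * gseq (Q d n) := by
  unfold chkC at h
  simp only [Bool.and_eq_true, Nat.ble_eq] at h
  obtain ⟨h1, h2, h3, h4, h5⟩ := h
  have h6 := gseq_exp (cut_of h2) h1 h3 n
  have h7 := gseq_top (d := d) n
  obtain ⟨l, hl⟩ := Nat.exists_eq_add_of_le h7
  set g := gseq (Q d n)
  set C := ((d - 1) ^ (R - 1) + K) * (d - 1) * (3 * d - 2)
  rw [hl] at h6 ⊢
  have h8 : C * l ≤ d ^ 2 * K * g := by nlinarith
  have h9 : c * (d ^ 2 * K) * l ≤ C * l := Nat.mul_le_mul_right l h5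
  have h10 : (d ^ 2 * K) * (c * l) ≤ (d ^ 2 * K) * g := by nlinarith
  have h11 : c * l ≤ g := Nat.le_of_mul_le_mul_left h10 (by positivity)
  nlinarith

/-- the instances of the horizon -/
def chkH (d R K N : ℕ) : Bool :=
  chkCut d R K && Nat.ble (K * N + 1) (K * d + (d - 1) ^ (R - 1) * (d - 3))

theorem hor_of {R K N : ℕ} (h : chkH d R K N = true) {n : ℕ} (hn : n ≤ N) :
    gseq (Q d n) = n + 1 ∧ gset (Q d n) = n + 1 := by
  unfold chkH at h
  simp only [Bool.and_eq_true, Nat.ble_eq] at h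
  obtain ⟨h1, h2⟩ := h
  apply gseq_hor (cut_of h1)
  have := Nat.mul_le_mul_left K hn
  omega

/-- the constants c -/
def cst : ℕ → ℕ
  | 3 => 4
  | 4 => 7
  | 5 => 10
  | 6 => 21
  | 7 => 66
  | 8 => 236
  | 9 => 961
  | 10 => 4202
  | 11 => 20030
  | 12 => 100315
  | 13 => 538004
  | _ => 0

/-- the horizons -/
def hrz : ℕ → ℕ
  | 3 => 6
  | 4 => 6
  | 5 => 11
  | 6 => 31
  | 7 => 116
  | 8 => 493
  | 9 => 2339
  | 10 => 11676
  | 11 => 62551
  | 12 => 347621
  | 13 => 2047813
  | _ => 0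

/-- the general bound, for every d ≥ 3 -/
theorem low_gen (hd : 3 ≤ d) (n : ℕ) :
    ((d ^ 2 + 6) / 2 - d) * (n + 1) ≤ ((d ^ 2 + 6) / 2 - d + 1) * gseq (Q d n) := by
  have h := gseq_lows hd n
  have hle : d ≤ (d ^ 2 + 6) / 2 := by
    have h1 : d * 2 ≤ d ^ 2 + 6 := by nlinarith
    exact (Nat.le_div_iff_mul_le (by norm_num)).2 h1
  have hR : RR d d = ((d : ℤ) - 3) * (d - 1) + 2 := by
    unfold RR
    rw [if_neg (by omega), PP_big' hd (by omega) (le_refl _)]
    push_cast [Nat.cast_sub (show 1 ≤ d by omega)]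
    ring
  have hC : Ce d = 2 * (((d ^ 2 + 6) / 2 - d : ℕ) : ℤ) := by
    have h1 : Ce d = 2 * (((d : ℤ) ^ 2 + 6 + (-(2 * (d : ℤ))) * 2) / 2) + 2 * d := by
      unfold Ce Re ev2
      rw [hR]
      congr 3
      ring
    have h2 : (((d ^ 2 + 6) / 2 - d : ℕ) : ℤ) = ((d : ℤ) ^ 2 + 6) / 2 - d := by
      rw [Nat.cast_sub hle]
      push_cast
      rfl
    rw [h1, h2, Int.add_mul_ediv_right _ _ (by norm_num)]
    ring
  rw [hC] at h
  have h3 : ((((d ^ 2 + 6) / 2 - d : ℕ) : ℤ)) * ((n : ℤ) + 1) ≤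
      ((((d ^ 2 + 6) / 2 - d : ℕ) : ℤ) + 1) * gseq (Q d n) := by linarith
  exact_mod_cast h3

theorem low (d n : ℕ) (h3 : 3 ≤ d) (h13 : d ≤ 13) :
    cst d * (n + 1) ≤ (cst d + 1) * gseq (Q d n) := by
  interval_cases d
  · exact low_gen (d := 3) (by norm_num) n
  · exact low_gen (d := 4) (by norm_num) n
  · exact low_gen (d := 5) (by norm_num) n
  · exact low_of (R := 9) (K := 45360) (by decide +kernel) n
  · exact low_of (R := 17) (K := 102918816000) (by decide +kernel) n
  · exact low_of (R := 20) (K := 117327450240000) (by decide +kernel) n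
  · exact low_of (R := 32) (K := num 9 32 / den 9 32) (by decide +kernel) n
  · exact low_of (R := 35) (K := num 10 35 / den 10 35) (by decide +kernel) n
  · exact low_of (R := 49) (K := num 11 49 / den 11 49) (by decide +kernel) n
  · exact low_of (R := 54) (K := num 12 54 / den 12 54) (by decide +kernel) n
  · exact low_of (R := 71) (K := num 13 71 / den 13 71) (by decide +kernel) n

theorem hor (d n : ℕ) (h3 : 3 ≤ d) (h13 : d ≤ 13) (hn : n ≤ hrz d) :
    gseq (Q d n) = n + 1 ∧ gset (Q d n) = n + 1 := by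
  interval_cases d
  · exact values (le_refl 3) hn
  · exact values (by norm_num) hn
  · exact hor_of (R := 7) (K := 1260) (N := 11) (by decide +kernel) hn
  · exact hor_of (R := 9) (K := 45360) (N := 31) (by decide +kernel) hn
  · exact hor_of (R := 17) (K := 102918816000) (N := 116) (by decide +kernel) hn
  · exact hor_of (R := 20) (K := 117327450240000) (N := 493) (by decide +kernel) hn
  · exact hor_of (R := 32) (K := num 9 32 / den 9 32) (N := 2339) (by decide +kernel) hn
  · exact hor_of (R := 35) (K := num 10 35 / den 10 35) (N := 11676) (by decide +kernel) hn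
  · exact hor_of (R := 49) (K := num 11 49 / den 11 49) (N := 62551) (by decide +kernel) hn
  · exact hor_of (R := 54) (K := num 12 54 / den 12 54) (N := 347621) (by decide +kernel) hn
  · exact hor_of (R := 71) (K := num 13 71 / den 13 71) (N := 2047813) (by decide +kernel) hn

end Pool.Agent.H19.CG
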