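import Pool.Agent.H19.CG.Mul
import Pool.Agent.H19.CG.Low

namespace Pool.Agent.H19.CG

/-! ### Weighted sums over the claimed points above a point -/

variable {d : ℕ}

open scoped Classical

/-- the weight of a claimed point at relative position z -/
def wt (R K : ℕ) (z : Fin d → ℕ) : ℕ := if rk z ≤ R then mult z * (d - 1) ^ (R - rk z) else K

/-- total weight of the claimed points above x -/
noncomputable def Tt (R K : ℕ) (H : Finset (Fin d → ℕ)) (x : Fin d → ℕ) : ℕ :=
  ∑ y ∈ H.filter (fun y => x < y), wt R K (y - x)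

/-- the weight of the claimed points at distance between 2 and R -/
noncomputable def Yn (R K : ℕ) (H : Finset (Fin d → ℕ)) (x : Fin d → ℕ) : ℕ :=
  ∑ y ∈ H.filter (fun y => x < y ∧ rk x + 2 ≤ rk y ∧ rk y ≤ rk x + R), wt R K (y - x)

/-- the number of the claimed points at distance more than R -/
noncomputable def Fr (R : ℕ) (H : Finset (Fin d → ℕ)) (x : Fin d → ℕ) : ℕ :=
  (H.filter (fun y => x < y ∧ rk x + R < rk y)).card

theorem rk_tsub {x y : Fin d → ℕ} (h : x ≤ y) : rk (y - x) + rk x = rk y := by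
  unfold rk
  rw [← Finset.sum_add_distrib]
  refine Finset.sum_congr rfl (fun i _ => ?_)
  have h1 : x i ≤ y i := h i
  simp only [Pi.sub_apply]
  omega

theorem mult_e (j : Fin d) : mult (e j) = 1 := by
  have h1 := mult_spec (e j)
  have h2 : rk (e j) = 1 := by simp [rk, e]
  have h3 : ∏ i, ((e j) i).factorial = 1 := by
    refine Finset.prod_eq_one (fun i _ => ?_)
    by_cases hi : i = j
    · subst hi
      simp [e]
    · simp [e, Pi.single_eq_of_ne hi]
  rw [h2, h3] at h1
  simpa using h1

theorem tsub_e (x y : Fin d → ℕ) (j : Fin d) : y - (x + e j) = y - x - e j := by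
  funext i
  simp only [Pi.sub_apply, Pi.add_apply]
  omega

theorem le_iff_e {x y : Fin d → ℕ} (h : x ≤ y) (j : Fin d) : x + e j ≤ y ↔ 1 ≤ (y - x) j := by
  constructor
  · intro h1
    have := h1 j
    simp only [Pi.add_apply, e, Pi.single_eq_same] at this
    simp only [Pi.sub_apply]
    omega
  · intro h1 i
    by_cases hi : i = j
    · subst hi
      simp only [Pi.sub_apply] at h1
      simp only [Pi.add_apply, e, Pi.single_eq_same]
      omega
    · simp only [Pi.add_apply, e, Pi.single_eq_of_ne hi, add_zero]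
      exact h i

theorem decomp {R K : ℕ} (hR : 1 ≤ R) (H : Finset (Fin d → ℕ)) (x : Fin d → ℕ) :
    Tt R K H x = (d - 1) ^ (R - 1) * N1 H x + Yn R K H x + K * Fr R H x := by
  have h1 : (H.filter (fun y => x < y)) = (H.filter (fun y => x < y ∧ rk y = rk x + 1)) ∪
      ((H.filter (fun y => x < y ∧ rk x + 2 ≤ rk y ∧ rk y ≤ rk x + R)) ∪
      (H.filter (fun y => x < y ∧ rk x + R < rk y))) := by
    ext y
    simp only [Finset.mem_filter, Finset.mem_union]
    constructor
    · rintro ⟨h, h'⟩
      have := rk_lt h'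
      by_cases h3 : rk y = rk x + 1
      · exact Or.inl ⟨h, h', h3⟩
      · by_cases h4 : rk y ≤ rk x + R
        · exact Or.inr (Or.inl ⟨h, h', by omega, h4⟩)
        · exact Or.inr (Or.inr ⟨h, h', by omega⟩)
    · tauto
  unfold Tt
  rw [h1, Finset.sum_union, Finset.sum_union]
  · have h2 : ∑ y ∈ H.filter (fun y => x < y ∧ rk y = rk x + 1), wt R K (y - x) =
        (d - 1) ^ (R - 1) * N1 H x := by
      have h3 : ∀ y ∈ H.filter (fun y => x < y ∧ rk y = rk x + 1),
          wt R K (y - x) = (d - 1) ^ (R - 1) := by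
        intro y hy
        simp only [Finset.mem_filter] at hy
        obtain ⟨i, rfl⟩ := cover_eq hy.2.1 hy.2.2
        have h4 : x + e i - x = e i := by
          funext k
          simp only [Pi.sub_apply, Pi.add_apply]
          omega
        have h5 : rk (e i) = 1 := by simp [rk, e]
        unfold wt
        rw [h4, h5, if_pos hR, mult_e, one_mul]
      rw [Finset.sum_congr rfl h3, Finset.sum_const, smul_eq_mul, mul_comm]
      congr 1
      unfold N1
      symm
      refine Finset.card_bij (fun i _ => x + e i) ?_ ?_ ?_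
      · intro i hi
        simp only [Finset.mem_filter, Finset.mem_univ, true_and] at hi
        simp only [Finset.mem_filter]
        exact ⟨hi, lt_add_e x i, rk_add_e x i⟩
      · intro a _ b _ hab
        exact e_inj (add_left_cancel hab)
      · intro y hy
        simp only [Finset.mem_filter] at hy
        obtain ⟨i, rfl⟩ := cover_eq hy.2.1 hy.2.2
        exact ⟨i, by simpa using hy.1, rfl⟩
    have h3 : ∑ y ∈ H.filter (fun y => x < y ∧ rk x + R < rk y), wt R K (y - x) =
        K * Fr R H x := by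
      have h4 : ∀ y ∈ H.filter (fun y => x < y ∧ rk x + R < rk y), wt R K (y - x) = K := by
        intro y hy
        simp only [Finset.mem_filter] at hy
        have h5 := rk_tsub hy.2.1.le
        unfold wt
        rw [if_neg (by omega)]
      rw [Finset.sum_congr rfl h4, Finset.sum_const, smul_eq_mul, mul_comm]
      rfl
    rw [h2, h3]
    unfold Yn
    ring
  · rw [Finset.disjoint_left]
    intro y hy hy'
    simp only [Finset.mem_filter] at hy hy'
    omega
  · rw [Finset.disjoint_left]
    intro y hy hy'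
    simp only [Finset.mem_filter, Finset.mem_union] at hy hy'
    rcases hy' with hy' | hy' <;> omega

theorem near_pt {R K : ℕ} {x y : Fin d → ℕ} (hx : x < y) (h2 : rk x + 2 ≤ rk y)
    (hR : rk y ≤ rk x + R) (U : Finset (Fin d)) :
    ∑ j ∈ U, (if x + e j < y then wt R K (y - (x + e j)) else 0) ≤ (d - 1) * wt R K (y - x) := by
  have hz := rk_tsub hx.le
  have h1 : ∀ j ∈ U, (if x + e j < y then wt R K (y - (x + e j)) else 0) =
      if 1 ≤ (y - x) j then mult (y - x - e j) * (d - 1) ^ (R - rk (y - x) + 1) else 0 := by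
    intro j _
    by_cases hj : 1 ≤ (y - x) j
    · have h3 := (le_iff_e hx.le j).2 hj
      have h4 : x + e j < y := by
        refine lt_of_le_of_ne h3 ?_
        intro h5
        have h6 := rk_add_e x j
        rw [h5] at h6
        omega
      have h5 := rk_sub hj
      rw [if_pos h4, if_pos hj, tsub_e]
      unfold wt
      rw [if_pos (by omega)]
      congr 2
      omega
    · rw [if_neg hj, if_neg]
      intro h3
      exact hj ((le_iff_e hx.le j).1 h3.le)
  rw [Finset.sum_congr rfl h1, ← Finset.sum_filter, ← Finset.sum_mul]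
  have h3 := sum_mult (z := y - x) (by omega) U
  unfold wt
  rw [if_pos (by omega), pow_succ]
  calc (∑ j ∈ U.filter (fun j => 1 ≤ (y - x) j), mult (y - x - e j)) *
        ((d - 1) ^ (R - rk (y - x)) * (d - 1))
      ≤ mult (y - x) * ((d - 1) ^ (R - rk (y - x)) * (d - 1)) := Nat.mul_le_mul_right _ h3
    _ = _ := by ring

theorem far_pt {R K : ℕ} (hK : ∀ z : Fin d → ℕ, rk z = R → mult z ≤ K) {x y : Fin d → ℕ}
    (h2 : rk x + R < rk y) (U : Finset (Fin d)) :
    ∑ j ∈ U, (if x + e j < y then wt R K (y - (x + e j)) else 0) ≤ U.card * K := by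
  rw [← smul_eq_mul]
  refine Finset.sum_le_card_nsmul _ _ _ (fun j _ => ?_)
  split_ifs with h
  · have h3 := rk_tsub h.le
    rw [rk_add_e] at h3
    unfold wt
    split_ifs with h4
    · have h5 : rk (y - (x + e j)) = R := by omega
      rw [h5, Nat.sub_self, pow_zero, mul_one]
      exact hK _ h5
    · exact le_refl K
  · exact Nat.zero_le _

/-- The averaging inequality. -/
theorem avg {R K : ℕ} (hK : ∀ z : Fin d → ℕ, rk z = R → mult z ≤ K)
    (H : Finset (Fin d → ℕ)) (x : Fin d → ℕ) (U : Finset (Fin d)) :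
    ∑ j ∈ U, Tt R K H (x + e j) ≤ (d - 1) * Yn R K H x + U.card * (K * Fr R H x) := by
  have h1 : ∑ j ∈ U, Tt R K H (x + e j) =
      ∑ y ∈ H, ∑ j ∈ U, (if x + e j < y then wt R K (y - (x + e j)) else 0) := by
    rw [Finset.sum_comm]
    refine Finset.sum_congr rfl (fun j _ => ?_)
    unfold Tt
    rw [Finset.sum_filter]
  have h2 : ∀ y ∈ H, ∑ j ∈ U, (if x + e j < y then wt R K (y - (x + e j)) else 0) ≤
      (if x < y ∧ rk x + 2 ≤ rk y ∧ rk y ≤ rk x + R then (d - 1) * wt R K (y - x) else 0) +
      (if x < y ∧ rk x + R < rk y then U.card * K else 0) := by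
    intro y _
    by_cases hxy : x < y
    · by_cases h3 : rk x + R < rk y
      · rw [if_pos (show x < y ∧ rk x + R < rk y from ⟨hxy, h3⟩)]
        exact (far_pt hK h3 U).trans (Nat.le_add_left _ _)
      · by_cases h4 : rk x + 2 ≤ rk y
        · rw [if_pos ⟨hxy, h4, by omega⟩]
          exact (near_pt hxy h4 (by omega) U).trans (Nat.le_add_right _ _)
        · rw [Finset.sum_eq_zero]
          · exact Nat.zero_le _
          · intro j _
            rw [if_neg]
            intro h5
            have h6 := rk_lt h5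
            rw [rk_add_e] at h6
            omega
    · rw [Finset.sum_eq_zero]
      · exact Nat.zero_le _
      · intro j _
        rw [if_neg]
        intro h5
        exact hxy ((lt_add_e x j).trans h5)
  rw [h1]
  refine (Finset.sum_le_sum h2).trans ?_
  rw [Finset.sum_add_distrib, ← Finset.sum_filter, ← Finset.sum_filter, ← Finset.mul_sum,
    Finset.sum_const, smul_eq_mul]
  unfold Yn Fr
  apply le_of_eq
  ring

theorem Fr_mono (R : ℕ) (H : Finset (Fin d → ℕ)) (x : Fin d → ℕ) (j : Fin d) :
    Fr R H (x + e j) ≤ Fr R H x := by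
  unfold Fr
  apply Finset.card_le_card
  intro y hy
  simp only [Finset.mem_filter, rk_add_e] at hy ⊢
  exact ⟨hy.1, (lt_add_e x j).trans hy.2.1, by omega⟩

theorem Yn_insert_self (R K : ℕ) (H : Finset (Fin d → ℕ)) (x : Fin d → ℕ) :
    Yn R K (insert x H) x = Yn R K H x := by
  unfold Yn
  rw [Finset.filter_insert, if_neg (by simp)]

theorem Fr_insert_self (R : ℕ) (H : Finset (Fin d → ℕ)) (x : Fin d → ℕ) :
    Fr R (insert x H) x = Fr R H x := by
  unfold Fr
  rw [Finset.filter_insert, if_neg (by simp)]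

theorem wt_le {R K : ℕ}
    (hU : ∀ z : Fin d → ℕ, 2 ≤ rk z → rk z ≤ R → mult z ≤ 2 * (d - 1) ^ (rk z - 2))
    {z : Fin d → ℕ} (h2 : 2 ≤ rk z) (hR : rk z ≤ R) : wt R K z ≤ 2 * (d - 1) ^ (R - 2) := by
  unfold wt
  rw [if_pos hR]
  calc mult z * (d - 1) ^ (R - rk z) ≤ (2 * (d - 1) ^ (rk z - 2)) * (d - 1) ^ (R - rk z) :=
        Nat.mul_le_mul_right _ (hU z h2 hR)
    _ = _ := by
        rw [mul_assoc, ← pow_add]
        congr 2
        omega

/-- The effect of one more claimed point. -/
theorem ins {R K : ℕ} (hR1 : 1 ≤ R)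
    (hU : ∀ z : Fin d → ℕ, 2 ≤ rk z → rk z ≤ R → mult z ≤ 2 * (d - 1) ^ (rk z - 2))
    (H : Finset (Fin d → ℕ)) (x p : Fin d → ℕ) :
    (N1 (insert p H) x ≤ N1 H x + 1 ∧ Yn R K (insert p H) x ≤ Yn R K H x ∧
      Fr R (insert p H) x ≤ Fr R H x) ∨
    (N1 (insert p H) x ≤ N1 H x ∧ Yn R K (insert p H) x ≤ Yn R K H x + 2 * (d - 1) ^ (R - 2) ∧
      Fr R (insert p H) x ≤ Fr R H x) ∨
    (N1 (insert p H) x ≤ N1 H x ∧ Yn R K (insert p H) x ≤ Yn R K H x ∧
      Fr R (insert p H) x ≤ Fr R H x + 1) := by
  have hN : rk x + 2 ≤ rk p → N1 (insert p H) x ≤ N1 H x := by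
    intro h
    unfold N1
    apply Finset.card_le_card
    intro j hj
    simp only [Finset.mem_filter, Finset.mem_univ, true_and, Finset.mem_insert] at hj ⊢
    rcases hj with hj | hj
    · exfalso
      have := rk_add_e x j
      rw [hj] at this
      omega
    · exact hj
  have hY : ¬(x < p ∧ rk x + 2 ≤ rk p ∧ rk p ≤ rk x + R) →
      Yn R K (insert p H) x ≤ Yn R K H x := by
    intro h
    unfold Yn
    rw [Finset.filter_insert, if_neg h]
  have hF : ¬(x < p ∧ rk x + R < rk p) → Fr R (insert p H) x ≤ Fr R H x := by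
    intro h
    unfold Fr
    rw [Finset.filter_insert, if_neg h]
  by_cases h1 : rk x + 2 ≤ rk p
  · by_cases h2 : rk p ≤ rk x + R
    · right
      left
      refine ⟨hN h1, ?_, hF (fun h => by omega)⟩
      by_cases h3 : x < p
      · have h4 := rk_tsub h3.le
        have h5 : wt R K (p - x) ≤ 2 * (d - 1) ^ (R - 2) := wt_le hU (by omega) (by omega)
        unfold Yn
        rw [Finset.filter_insert, if_pos ⟨h3, h1, h2⟩]
        by_cases h6 : p ∈ H.filter (fun y => x < y ∧ rk x + 2 ≤ rk y ∧ rk y ≤ rk x + R)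
        · rw [Finset.insert_eq_of_mem h6]
          exact Nat.le_add_right _ _
        · rw [Finset.sum_insert h6, add_comm]
          exact Nat.add_le_add_left h5 _
      · exact (hY (fun h => h3 h.1)).trans (Nat.le_add_right _ _)
    · right
      right
      refine ⟨hN h1, hY (fun h => h2 h.2.2), ?_⟩
      unfold Fr
      rw [Finset.filter_insert]
      split_ifs
      · exact Finset.card_insert_le _ _
      · omega
  · left
    exact ⟨N1_insert_le H x p, hY (fun h => h1 h.2.1), hF (fun h => by omega)⟩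

end Pool.Agent.H19.CG
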